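import Pool.Agent.Helper82.DS.Sum

/-! # The basic complexes -/

open Matrix

namespace Pool.Agent.Helper82.DS

/-- The differential of the basic complex
`L → L² → L² → L` with maps `u`, `u v`, `v`, where `v = (a, b)`, `u = (b, -a)^T`;
the basis elements `0; 1, 2; 3, 4; 5` have degrees `q-1; q; q+1; q+2`. -/
noncomputable def bD (a b : L) : Matrix (Fin 6) (Fin 6) L :=
  !![0, a, b, 0, 0, 0;
     0, 0, 0, b * a, b * b, 0;
     0, 0, 0, -(a * a), -(a * b), 0;
     0, 0, 0, 0, 0, b;
     0, 0, 0, 0, 0, -a;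
     0, 0, 0, 0, 0, 0]

/-- Degrees of the basis elements. -/
def bdeg (q : ℤ) : Fin 6 → ℤ := ![q - 1, q, q, q + 1, q + 1, q + 2]

/-- The basic complex. -/
@[reducible] noncomputable def blockCx (q : ℤ) (a b : L) : Cx where
  ι := Fin 6
  deg := bdeg q
  d := bD a b
  hom := by
    intro i j h
    fin_cases i <;> fin_cases j <;> first
      | (exfalso; apply h; simp [bD]; done)
      | (simp [bdeg]; done)
      | (simp [bdeg]; ring)
  sq := by
    refine Matrix.ext fun i j => ?_
    fin_cases i <;> fin_cases j <;> simp [bD, Matrix.mul_apply, Fin.sum_univ_succ] <;> ring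

/-- The duality matrix; `s` is `(-1)^q`. -/
noncomputable def bF (s x τ τ' : L) : Matrix (Fin 6) (Fin 6) L :=
  !![0, 0, 0, 0, 0, x * τ;
     0, 0, 0, 0, -(s * x * τ), 0;
     0, 0, 0, s * x, 0, 0;
     0, 0, -x, 0, 0, 0;
     0, x * τ', 0, 0, 0, 0;
     -(s * x * τ'), 0, 0, 0, 0, 0]

theorem bF_deg (q : ℤ) (s x τ τ' : L) (i j : Fin 6) (h : bF s x τ τ' i j ≠ 0) :
    bdeg q i + bdeg q j = 2 * q + 1 := by
  fin_cases i <;> fin_cases j <;> first
    | (exfalso; apply h; simp [bF]; done)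
    | (simp [bdeg]; ring)

theorem bF_rel0 (q : ℤ) (a b x τ τ' : L) (ha : bar a = a) (hb : bar b = τ' * b)
    (hτ : τ * τ' = 1) (i j : Fin 6) :
    (bD a b * bF (sg q) x τ τ') i j + sg (bdeg q i) * (bF (sg q) x τ τ' * ct (bD a b)) i j
      = 0 := by
  have e1 : sg (q - 1) = - sg q := by
    have := sg_add_one (q - 1)
    rw [sub_add_cancel] at this
    rw [this, neg_neg]
  have e2 : sg (q + 1) = - sg q := sg_add_one q
  have e3 : sg (q + 2) = sg q := by
    have : q + 2 = (q + 1) + 1 := by ring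
    rw [this, sg_add_one, e2, neg_neg]
  have e4 := sg_mul_self q
  fin_cases i <;> fin_cases j <;>
    simp [bD, bF, ct, bdeg, Matrix.mul_apply, Fin.sum_univ_succ, ha, hb, e1, e2, e3] <;> first
      | (ring; done)
      | linear_combination (-(sg q * x * b)) * hτ
      | linear_combination (-(b * b * x * τ' * τ * τ')) * e4 + (-(b * b * x * τ')) * hτ
      | linear_combination (a * b * x * τ * τ') * e4 + (a * b * x) * hτ
      | linear_combination (a * b * x * τ') * e4
      | linear_combination (-(a * a * x)) * e4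

theorem bF_sym (q : ℤ) (x τ τ' : L) (hx : bar x = - (sg q * x)) (hτ : bar τ = τ')
    (hτ' : bar τ' = τ) (i j : Fin 6) :
    bar (bF (sg q) x τ τ' j i) = bF (sg q) x τ τ' i j := by
  have e4 := sg_mul_self q
  fin_cases i <;> fin_cases j <;>
    simp [bF, bar_sg, hx, hτ, hτ'] <;> first
      | (ring; done)
      | linear_combination (x * τ) * e4
      | linear_combination (x * τ') * e4
      | linear_combination (-(x * τ)) * e4
      | linear_combination (-(x * τ')) * e4
      | linear_combination x * e4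
      | linear_combination (-x) * e4
      | (left; linear_combination x * e4)

theorem even_mul_of_add_odd {u v q : ℤ} (h : u + v = 2 * q + 1) : Even (u * v) := by
  rcases Int.even_or_odd u with hu | hu
  · exact hu.mul_right v
  · have : Even v := by
      have h2 : v = 2 * q + 1 - u := by omega
      rw [h2]
      exact Odd.sub_odd ⟨q, rfl⟩ hu
    exact this.mul_left u

/-- A strictly symmetric `φ_0` gives a symmetric structure with `φ_s = 0` for `s ≥ 1`. -/
noncomputable def strictStr (q : ℤ) (C : Cx) (F : Matrix C.ι C.ι L)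
    (hom : ∀ i j, F i j ≠ 0 → C.deg i + C.deg j = 2 * q + 1)
    (rel0 : ∀ i j, (C.d * F) i j + sg (C.deg i) * (F * ct C.d) i j = 0)
    (sym : ∀ i j, bar (F j i) = F i j) : SymStr (2 * q + 1) C where
  φ s := if s = 0 then F else 0
  hom := by
    intro s i j h
    by_cases hs : s = 0
    · subst hs
      rw [if_pos rfl] at h
      simpa using hom i j h
    · rw [if_neg hs] at h
      exact absurd rfl h
  rel0 := by
    intro i j
    rw [if_pos rfl]
    exact rel0 i j
  rel := by
    intro s i j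
    rw [if_neg (Nat.succ_ne_zero s)]
    simp only [Matrix.zero_mul, Matrix.zero_apply, mul_zero, add_zero, zero_add]
    by_cases hs : s = 0
    · subst hs
      rw [if_pos rfl, sym i j]
      by_cases hF : F i j = 0
      · rw [hF]; ring
      · have h1 := even_mul_of_add_odd (hom i j hF)
        have h2 : sg (C.deg i * C.deg j) = 1 := by unfold sg; rw [if_pos h1]
        have h3 : sg (((0 : ℕ) : ℤ) + 1) = -1 := by
          rw [sg_add_one]
          simp [sg]
        rw [h2, h3]
        ring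
    · rw [if_neg hs]
      simp

/-- The basic symmetric complex. -/
noncomputable def blockSym (q : ℤ) (a b x τ τ' : L) (ha : bar a = a) (hb : bar b = τ' * b)
    (hτ : τ * τ' = 1) (hx : bar x = - (sg q * x)) (hτ1 : bar τ = τ') (hτ2 : bar τ' = τ) :
    SymCx (2 * q + 1) where
  C := blockCx q a b
  Φ := strictStr q (blockCx q a b) (bF (sg q) x τ τ') (bF_deg q (sg q) x τ τ')
    (bF_rel0 q a b x τ τ' ha hb hτ) (bF_sym q x τ τ' hx hτ1 hτ2)

/-- A contracting homotopy for the multiples of `a²`, `ab`, `b²`. -/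
noncomputable def bH (a b α β γ : L) : Matrix (Fin 6) (Fin 6) L :=
  !![0, 0, 0, 0, 0, 0;
     α * a + β * b, 0, 0, 0, 0, 0;
     γ * b, 0, 0, 0, 0, 0;
     0, 0, -α, 0, 0, 0;
     0, γ, -β, 0, 0, 0;
     0, 0, 0, β * a + γ * b, -(α * a), 0]

theorem bH_deg (q : ℤ) (a b α β γ : L) :
    Homog (blockCx q a b) (blockCx q a b) 1 (bH a b α β γ) := by
  intro i j h
  fin_cases i <;> fin_cases j <;> first
    | (exfalso; apply h; simp [bH]; done)
    | (simp [bdeg]; done)
    | (simp [bdeg]; ring)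

theorem bH_htpy (a b α β γ : L) :
    bD a b * bH a b α β γ + bH a b α β γ * bD a b
      = (α * (a * a) + β * (a * b) + γ * (b * b)) • (1 : Matrix (Fin 6) (Fin 6) L) := by
  refine Matrix.ext fun i j => ?_
  fin_cases i <;> fin_cases j <;>
    simp [bD, bH] <;> ring

theorem bF_sq (s τ τ' : L) (hτ : τ * τ' = 1) :
    bF s 1 τ τ' * bF s 1 τ τ' = (-s) • (1 : Matrix (Fin 6) (Fin 6) L) := by
  refine Matrix.ext fun i j => ?_
  fin_cases i <;> fin_cases j <;>
    simp [bF, Matrix.mul_apply, Fin.sum_univ_succ] <;> first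
      | (linear_combination (-s) * hτ)
      | (linear_combination s * hτ)

theorem bF_smul (s x τ τ' : L) : bF s x τ τ' = x • bF s 1 τ τ' := by
  refine Matrix.ext fun i j => ?_
  fin_cases i <;> fin_cases j <;> simp [bF] <;> ring

theorem comm_of_rel0 {n : ℤ} {C : Cx} (F : Matrix C.ι C.ι L)
    (hom : ∀ i j, F i j ≠ 0 → C.deg i + C.deg j = n)
    (rel0 : ∀ i j, (C.d * F) i j + sg (C.deg i) * (F * ct C.d) i j = 0) :
    C.d * F = F * (C.dual n).d := by
  refine Matrix.ext fun i j => ?_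
  have h := rel0 i j
  have e : (F * (C.dual n).d) i j = - (sg (C.deg i) * (F * ct C.d) i j) := by
    rw [Matrix.mul_apply, Matrix.mul_apply, Finset.mul_sum, ← Finset.sum_neg_distrib]
    refine Finset.sum_congr rfl (fun k _ => ?_)
    simp only [ct, Matrix.of_apply]
    by_cases h1 : F i k = 0
    · rw [h1]; ring
    · by_cases h2 : C.d j k = 0
      · rw [h2, map_zero]; ring
      · have h3 := hom i k h1
        have h4 := C.hom j k h2
        have h5 : n - C.deg j = C.deg i + 1 := by omega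
        rw [h5, sg_add_one]
        ring
  rw [e]
  linear_combination h

/-- `φ_0 : C^{n-*} → C` is a chain map. -/
theorem SymStr.isChainMap {n : ℤ} {C : Cx} (Φ : SymStr n C) :
    IsChainMap (C.dual n) C (Φ.φ 0) := by
  refine ⟨?_, comm_of_rel0 _ (fun i j h => ?_) Φ.rel0⟩
  · intro i j h
    have := Φ.hom 0 i j h
    simp only [Nat.cast_zero, add_zero] at this
    change C.deg i = n - C.deg j + 0
    omega
  · simpa using Φ.hom 0 i j h

theorem poincare_of_iso {n : ℤ} {C : Cx} (Φ : SymStr n C) (x w s κ : L)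
    (F1 H : Matrix C.ι C.ι L) (hss : s * s = 1) (hφ : Φ.φ 0 = x • F1)
    (hsq : F1 * F1 = (-s) • (1 : Matrix C.ι C.ι L))
    (hdeg1 : ∀ i j, F1 i j ≠ 0 → C.deg i + C.deg j = n)
    (hc1 : C.d * F1 = F1 * (C.dual n).d)
    (hH1 : C.d * H + H * C.d = κ • (1 : Matrix C.ι C.ι L))
    (hHd : ∀ i j, H i j ≠ 0 → C.deg i = C.deg j + 1) (hw : x * w = 1 - κ) :
    Φ.Poincare := by
  obtain ⟨E, hE⟩ : ∃ E : Matrix C.ι C.ι L, E = (C.dual n).d := ⟨_, rfl⟩
  rw [← hE] at hc1
  have hc2 : E * F1 = F1 * C.d := by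
    have h1 : F1 * (C.d * F1) * F1 = F1 * (F1 * E) * F1 := by rw [hc1]
    have h2 : F1 * (C.d * F1) * F1 = (-s) • (F1 * C.d) := by
      rw [Matrix.mul_assoc, Matrix.mul_assoc, hsq, Matrix.mul_smul, Matrix.mul_smul,
        Matrix.mul_one]
    have h3 : F1 * (F1 * E) * F1 = (-s) • (E * F1) := by
      rw [← Matrix.mul_assoc, hsq, Matrix.smul_mul, Matrix.smul_mul, Matrix.one_mul]
    rw [h2, h3] at h1
    have h4 := congrArg (fun M => (-s) • M) h1
    simp only [smul_smul, neg_mul_neg, hss, one_smul] at h4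
    exact h4.symm
  refine ⟨Φ.isChainMap, (-s * w) • F1, ⟨?_, ?_⟩, ⟨s • (F1 * H * F1), ?_, ?_⟩,
    ⟨-H, ?_, ?_⟩⟩
  · intro i j h
    have h1 : F1 i j ≠ 0 := by
      intro h0
      apply h
      rw [Matrix.smul_apply, h0, smul_zero]
    have := hdeg1 i j h1
    change n - C.deg i = C.deg j + 0
    omega
  · rw [← hE, Matrix.mul_smul, Matrix.smul_mul, hc2]
  · intro i j h
    rw [Matrix.smul_apply, Matrix.mul_assoc] at h
    have h1 : (F1 * (H * F1)) i j ≠ 0 := by
      intro h0; apply h; rw [h0, smul_zero]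
    rw [Matrix.mul_apply] at h1
    obtain ⟨k, _, hk⟩ := Finset.exists_ne_zero_of_sum_ne_zero h1
    have hk1 := left_ne_zero_of_mul hk
    have hk2 := right_ne_zero_of_mul hk
    rw [Matrix.mul_apply] at hk2
    obtain ⟨l, _, hl⟩ := Finset.exists_ne_zero_of_sum_ne_zero hk2
    have hl1 := left_ne_zero_of_mul hl
    have hl2 := right_ne_zero_of_mul hl
    have a1 := hdeg1 i k hk1
    have a2 := hHd k l hl1
    have a3 := hdeg1 l j hl2
    change n - C.deg i = n - C.deg j + 1
    omega
  · rw [hφ, ← hE]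
    have e1 : E * (s • (F1 * H * F1)) = s • (F1 * (C.d * H) * F1) := by
      rw [Matrix.mul_smul, ← Matrix.mul_assoc, ← Matrix.mul_assoc, hc2, Matrix.mul_assoc F1 C.d H]
    have e2 : s • (F1 * H * F1) * E = s • (F1 * (H * C.d) * F1) := by
      have : F1 * E = C.d * F1 := hc1.symm
      rw [Matrix.smul_mul, Matrix.mul_assoc (F1 * H) F1 E, this, ← Matrix.mul_assoc,
        Matrix.mul_assoc F1 H C.d]
    have e3 : F1 * (κ • (1 : Matrix C.ι C.ι L)) * F1 = (κ * (-s)) • (1 : Matrix C.ι C.ι L) := by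
      rw [Matrix.mul_smul, Matrix.mul_one, Matrix.smul_mul, hsq, smul_smul]
    have e4 : ((-s * w) • F1) * (x • F1) = ((-s * w) * x * (-s)) • (1 : Matrix C.ι C.ι L) := by
      rw [Matrix.mul_smul, Matrix.smul_mul, hsq, smul_smul, smul_smul]
      congr 1
      ring
    rw [e1, e2, ← smul_add, ← Matrix.add_mul, ← Matrix.mul_add, hH1, e3, e4, smul_smul]
    have e5 : ((-s * w) * x * (-s)) • (1 : Matrix C.ι C.ι L) - 1
        = ((-s * w) * x * (-s) - 1) • (1 : Matrix C.ι C.ι L) := by
      rw [sub_smul, one_smul]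
    refine Eq.trans e5 ?_
    congr 1
    linear_combination (w * x + κ) * hss + hw
  · intro i j h
    exact hHd i j (by intro h0; apply h; rw [Matrix.neg_apply, h0, neg_zero])
  · have e4 : (x • F1) * ((-s * w) • F1) = (x * (-s * w) * (-s)) • (1 : Matrix C.ι C.ι L) := by
      rw [Matrix.mul_smul, Matrix.smul_mul, hsq, smul_smul, smul_smul]
      congr 1
      ring
    rw [hφ, Matrix.mul_neg, Matrix.neg_mul, ← neg_add, hH1, e4]
    have e5 : (x * (-s * w) * (-s)) • (1 : Matrix C.ι C.ι L) - 1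
        = (x * (-s * w) * (-s) - 1) • (1 : Matrix C.ι C.ι L) := by
      rw [sub_smul, one_smul]
    refine Eq.trans e5 ?_
    rw [← neg_smul]
    congr 1
    linear_combination (w * x) * hss + hw

theorem blockSym_poincare (q : ℤ) (a b x τ τ' w α β γ : L) (ha : bar a = a)
    (hb : bar b = τ' * b) (hτ : τ * τ' = 1) (hx : bar x = - (sg q * x)) (hτ1 : bar τ = τ')
    (hτ2 : bar τ' = τ) (hw : x * w = 1 - (α * (a * a) + β * (a * b) + γ * (b * b))) :
    (blockSym q a b x τ τ' ha hb hτ hx hτ1 hτ2).Φ.Poincare :=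
  poincare_of_iso (C := blockCx q a b) _ x w (sg q) _ (bF (sg q) 1 τ τ') (bH a b α β γ)
    (sg_mul_self q) (bF_smul (sg q) x τ τ') (bF_sq (sg q) τ τ' hτ)
    (bF_deg q (sg q) 1 τ τ')
    (comm_of_rel0 (C := blockCx q a b) (bF (sg q) 1 τ τ') (bF_deg q (sg q) 1 τ τ')
      (bF_rel0 q a b 1 τ τ' ha hb hτ))
    (bH_htpy a b α β γ) (bH_deg q a b α β γ) hw

end Pool.Agent.Helper82.DS
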