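import Pool.Agent.Helper82.DS.Obstruct

/-! # Evaluation at `t = i` and the contradiction modulo `p` -/

open Matrix LaurentPolynomial

namespace Pool.Agent.Helper82.DS

/-- The unit `i` of `ℤ[i]`. -/
def iU : GaussianIntˣ where
  val := ⟨0, 1⟩
  inv := ⟨0, -1⟩
  val_inv := by decide
  inv_val := by decide

/-- Evaluation `t ↦ i`. -/
noncomputable def ev : L →+* GaussianInt :=
  LaurentPolynomial.eval₂ (Int.castRingHom GaussianInt) iU

theorem ev_T (n : ℤ) : ev (T n) = ((iU ^ n : GaussianIntˣ) : GaussianInt) := by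
  unfold ev
  simp

theorem star_iU : star iU = iU⁻¹ := by
  apply Units.ext
  rfl

theorem ev_bar (x : L) : ev (bar x) = star (ev x) := by
  induction x using LaurentPolynomial.induction_on' with
  | add p q hp hq => rw [map_add, map_add, map_add, star_add, hp, hq]
  | C_mul_T n a =>
    have h1 : bar (C a * T n) = C a * T (-n) := by
      rw [map_mul, bar_T]
      congr 1
      exact LaurentPolynomial.invert_C a
    have h2 : ev (C a) = (a : GaussianInt) := by simp [ev]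
    have h3 : star ((iU ^ n : GaussianIntˣ) : GaussianInt) = ((iU ^ (-n) : GaussianIntˣ)) := by
      rw [← Units.coe_star, star_zpow, star_iU, _root_.inv_zpow, _root_.zpow_neg]
    rw [h1, map_mul, map_mul, ev_T, ev_T, h2, star_mul, h3, mul_comm]
    congr 1

theorem ev_bb : ev bb = 0 := by
  unfold bb
  rw [map_add, ev_T, map_one]
  decide

theorem bdr_mul_apply {J : Type} [Fintype J] [DecidableEq J] {Y : Type}
    (M : J → Matrix (Fin 6) (Fin 6) L) (E : Matrix (Σ _ : J, Fin 6) Y L) (j : J) (a : Fin 6)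
    (y : Y) :
    (Matrix.blockDiagonal' M * E) ⟨j, a⟩ y = ∑ c, M j a c * E ⟨j, c⟩ y := by
  rw [Matrix.mul_apply, Fintype.sum_sigma, Finset.sum_eq_single j]
  · refine Finset.sum_congr rfl fun c _ => ?_
    rw [Matrix.blockDiagonal'_apply_eq]
  · intro k _ hk
    refine Finset.sum_eq_zero fun c _ => ?_
    rw [bd_ne (m := fun _ => Fin 6) (n := fun _ => Fin 6) M (Ne.symm hk) a c, zero_mul]
  · intro h
    exact absurd (Finset.mem_univ j) h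

theorem mul_bdr_apply {J : Type} [Fintype J] [DecidableEq J] {Y : Type}
    (M : J → Matrix (Fin 6) (Fin 6) L) (E : Matrix Y (Σ _ : J, Fin 6) L) (k : J) (b : Fin 6)
    (y : Y) :
    (E * Matrix.blockDiagonal' M) y ⟨k, b⟩ = ∑ c, E y ⟨k, c⟩ * M k c b := by
  rw [Matrix.mul_apply, Fintype.sum_sigma, Finset.sum_eq_single k]
  · refine Finset.sum_congr rfl fun c _ => ?_
    rw [Matrix.blockDiagonal'_apply_eq]
  · intro j _ hj
    refine Finset.sum_eq_zero fun c _ => ?_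
    rw [bd_ne (m := fun _ => Fin 6) (n := fun _ => Fin 6) M hj c b, mul_zero]
  · intro h
    exact absurd (Finset.mem_univ k) h

theorem ev_nat (p : ℕ) : ev (p : L) = (p : GaussianInt) := map_natCast ev p

section core

variable {J : Type} [Fintype J] [DecidableEq J] (p : J → ℕ)

/-- Differential of the sum. -/
noncomputable def DJ : Matrix (Σ _ : J, Fin 6) (Σ _ : J, Fin 6) L :=
  Matrix.blockDiagonal' (fun j => bD (p j : L) bb)

theorem comm23 {E : Matrix (Σ _ : J, Fin 6) (Σ _ : J, Fin 6) L} (hc : DJ p * E = E * DJ p)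
    (j k : J) :
    (p j : GaussianInt) ^ 2 * ev (E ⟨j, 3⟩ ⟨k, 3⟩) = (p k : GaussianInt) ^ 2 * ev (E ⟨j, 2⟩ ⟨k, 2⟩) := by
  have h := congrFun (congrFun hc ⟨j, 2⟩) ⟨k, 3⟩
  unfold DJ at h
  rw [bdr_mul_apply, mul_bdr_apply] at h
  have h2 := congrArg ev h
  simp only [bD, Fin.sum_univ_succ, map_add, map_mul] at h2
  simp [ev_bb] at h2
  linear_combination h2

theorem comm24 {E : Matrix (Σ _ : J, Fin 6) (Σ _ : J, Fin 6) L} (hc : DJ p * E = E * DJ p)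
    (hp : ∀ j, p j ≠ 0) (j k : J) : ev (E ⟨j, 3⟩ ⟨k, 4⟩) = 0 := by
  have h := congrFun (congrFun hc ⟨j, 2⟩) ⟨k, 4⟩
  unfold DJ at h
  rw [bdr_mul_apply, mul_bdr_apply] at h
  have h2 := congrArg ev h
  simp only [bD, Fin.sum_univ_succ, map_add, map_mul] at h2
  simp [ev_bb, hp j] at h2
  exact h2

/-- The sum of the duality matrices. -/
noncomputable def FJ (q : ℤ) (u : J → ℤˣ) : Matrix (Σ _ : J, Fin 6) (Σ _ : J, Fin 6) L :=
  Matrix.blockDiagonal' (fun j => ((u j : ℤ) : L) • bF (sg q) (xq q) (T 2) (T (-2)))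

theorem iso23 {q : ℤ} {u : J → ℤˣ} {E K : Matrix (Σ _ : J, Fin 6) (Σ _ : J, Fin 6) L}
    (hp : ∀ j, p j ≠ 0) (hdeg : ∀ i k, E i k ≠ 0 → bdeg q i.2 = bdeg q k.2)
    (hc : DJ p * E = E * DJ p) (j : J)
    (hiso : (E * FJ q u * ct E) ⟨j, 2⟩ ⟨j, 3⟩
      = - (sg (2 * q + 1) * ((DJ p * K) ⟨j, 2⟩ ⟨j, 3⟩ + sg q * (K * ct (DJ p)) ⟨j, 2⟩ ⟨j, 3⟩))) :
    (p j : GaussianInt) ^ 2 ∣ ∑ k, ev (E ⟨j, 2⟩ ⟨k, 2⟩) * (((u k : ℤ) : GaussianInt)
      * ev (sg q * xq q)) * star (ev (E ⟨j, 3⟩ ⟨k, 3⟩)) := by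
  have z : ∀ (k : J) (a b : Fin 6), bdeg q a ≠ bdeg q b → E ⟨j, a⟩ ⟨k, b⟩ = 0 := by
    intro k a b hab
    by_contra h
    exact hab (hdeg _ _ h)
  have hL : ev ((E * FJ q u * ct E) ⟨j, 2⟩ ⟨j, 3⟩) = ∑ k, ev (E ⟨j, 2⟩ ⟨k, 2⟩)
      * (((u k : ℤ) : GaussianInt) * ev (sg q * xq q)) * star (ev (E ⟨j, 3⟩ ⟨k, 3⟩)) := by
    rw [Matrix.mul_apply, Fintype.sum_sigma, map_sum]
    refine Finset.sum_congr rfl fun k _ => ?_
    have z0 : E ⟨j, 3⟩ ⟨k, 0⟩ = 0 := z k 3 0 (by simp [bdeg]; omega)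
    have z1 : E ⟨j, 3⟩ ⟨k, 1⟩ = 0 := z k 3 1 (by simp [bdeg])
    have z2 : E ⟨j, 3⟩ ⟨k, 2⟩ = 0 := z k 3 2 (by simp [bdeg])
    have z5 : E ⟨j, 3⟩ ⟨k, 5⟩ = 0 := z k 3 5 (by simp [bdeg])
    have c4 := comm24 p hc hp j k
    rw [Fin.sum_univ_six]
    unfold FJ
    simp only [ct, Matrix.of_apply, z0, z1, z2, z5, map_zero, mul_zero, zero_add, add_zero,
      map_add, map_mul, ev_bar, c4, star_zero]
    rw [mul_bdr_apply]
    have y0 : E ⟨j, 2⟩ ⟨k, 0⟩ = 0 := z k 2 0 (by simp [bdeg]; omega)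
    have y3 : E ⟨j, 2⟩ ⟨k, 3⟩ = 0 := z k 2 3 (by simp [bdeg])
    have y4 : E ⟨j, 2⟩ ⟨k, 4⟩ = 0 := z k 2 4 (by simp [bdeg])
    have y5 : E ⟨j, 2⟩ ⟨k, 5⟩ = 0 := z k 2 5 (by simp [bdeg])
    rw [Fin.sum_univ_six, y0, y3, y4, y5]
    simp [bF]
  have hR : ev (- (sg (2 * q + 1) * ((DJ p * K) ⟨j, 2⟩ ⟨j, 3⟩ + sg q * (K * ct (DJ p)) ⟨j, 2⟩ ⟨j, 3⟩)))
      = (p j : GaussianInt) ^ 2 * (ev (sg (2 * q + 1)) * ev (K ⟨j, 3⟩ ⟨j, 3⟩)) := by
    have r1 : ev ((DJ p * K) ⟨j, 2⟩ ⟨j, 3⟩) = - ((p j : GaussianInt) ^ 2 * ev (K ⟨j, 3⟩ ⟨j, 3⟩)) := by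
      unfold DJ
      rw [bdr_mul_apply, Fin.sum_univ_six]
      simp [bD, ev_bb]
      left
      ring
    have r2 : ev ((K * ct (DJ p)) ⟨j, 2⟩ ⟨j, 3⟩) = 0 := by
      unfold DJ
      rw [ct_blockDiagonal', mul_bdr_apply, Fin.sum_univ_six]
      simp [bD, ct, ev_bar, ev_bb]
    rw [map_neg, map_mul, map_add, map_mul, r1, r2]
    ring
  rw [hiso, hR] at hL
  exact ⟨_, hL.symm⟩

theorem prime_of (n : ℕ) (h : n.Prime ∧ n % 4 = 3) : Prime (n : GaussianInt) := by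
  have : Fact n.Prime := ⟨h.1⟩
  exact GaussianInt.prime_of_nat_prime_of_mod_four_eq_three n h.2

/-- An odd prime `≡ 3 mod 4` divides neither a unit nor twice a unit. -/
theorem not_dvd_x {n : ℕ} (h : n.Prime ∧ n % 4 = 3) (q : ℤ) (u : ℤˣ) :
    ¬ (n : GaussianInt) ∣ ((u : ℤ) : GaussianInt) * ev (sg q * xq q) := by
  intro hd
  have h1 : ∃ w : GaussianInt, ((u : ℤ) : GaussianInt) * ev (sg q * xq q) * w = 2 := by
    have hu : ((u : ℤ) : GaussianInt) * ((u : ℤ) : GaussianInt) = 1 := by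
      rw [← Int.cast_mul, ← Units.val_mul, Int.units_mul_self]
      simp
    have hs : ev (sg q) * ev (sg q) = 1 := by
      rw [← map_mul, sg_mul_self, map_one]
    have hx : ∃ w : GaussianInt, ev (xq q) * w = 2 := by
      unfold xq
      split_ifs
      · refine ⟨(iU⁻¹ : GaussianIntˣ), ?_⟩
        rw [map_sub, ev_T, ev_T]
        decide
      · exact ⟨2, by rw [map_one, one_mul]⟩
    obtain ⟨w, hw⟩ := hx
    refine ⟨((u : ℤ) : GaussianInt) * ev (sg q) * w, ?_⟩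
    rw [map_mul]
    linear_combination (ev (xq q) * w * ev (sg q) * ev (sg q)) * hu + (ev (xq q) * w) * hs + hw
  obtain ⟨w, hw⟩ := h1
  have h2 : (n : GaussianInt) ∣ 2 := by
    rw [← hw]
    exact Dvd.dvd.mul_right hd w
  have h3 : (n : ℤ) ∣ 2 := by
    have : ((n : ℤ) : GaussianInt) ∣ ((2 : ℤ) : GaussianInt) := by simpa using h2
    exact (Zsqrtd.intCast_dvd_intCast _ _).mp this
  have h4 : n ∣ 2 := by exact_mod_cast h3
  have h5 := (Nat.prime_dvd_prime_iff_eq h.1 Nat.prime_two).mp h4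
  rw [h5] at h
  omega

theorem core_dvd {q : ℤ} {u : J → ℤˣ} {E K : Matrix (Σ _ : J, Fin 6) (Σ _ : J, Fin 6) L}
    (hp : ∀ j, (p j).Prime ∧ p j % 4 = 3) (j : J) (hj : ∀ k, p k = p j → k = j)
    (hdeg : ∀ i k, E i k ≠ 0 → bdeg q i.2 = bdeg q k.2)
    (hc : DJ p * E = E * DJ p)
    (hiso : (E * FJ q u * ct E) ⟨j, 2⟩ ⟨j, 3⟩
      = - (sg (2 * q + 1) * ((DJ p * K) ⟨j, 2⟩ ⟨j, 3⟩ + sg q * (K * ct (DJ p)) ⟨j, 2⟩ ⟨j, 3⟩))) :
    (p j : GaussianInt) ∣ ev (E ⟨j, 2⟩ ⟨j, 2⟩) := by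
  have hP := prime_of (p j) (hp j)
  have h0 : ∀ k, p k ≠ 0 := fun k => (hp k).1.ne_zero
  have h1 := (dvd_pow_self (p j : GaussianInt) two_ne_zero).trans (iso23 p h0 hdeg hc j hiso)
  have h2 : ∀ k, k ≠ j → (p j : GaussianInt) ∣ ev (E ⟨j, 2⟩ ⟨k, 2⟩) := by
    intro k hk
    have h3 := comm23 p hc j k
    have h4 : (p j : GaussianInt) ∣ (p k : GaussianInt) ^ 2 * ev (E ⟨j, 2⟩ ⟨k, 2⟩) := by
      rw [← h3]
      exact Dvd.dvd.mul_right (dvd_pow_self _ two_ne_zero) _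
    rcases hP.dvd_or_dvd h4 with h5 | h5
    · exfalso
      have h6 := hP.dvd_of_dvd_pow h5
      have h7 : (p j : ℤ) ∣ (p k : ℤ) := by
        have : ((p j : ℤ) : GaussianInt) ∣ ((p k : ℤ) : GaussianInt) := by simpa using h6
        exact (Zsqrtd.intCast_dvd_intCast _ _).mp this
      have h8 : p j ∣ p k := by exact_mod_cast h7
      have h9 := (Nat.prime_dvd_prime_iff_eq (hp j).1 (hp k).1).mp h8
      exact hk (hj k h9.symm)
    · exact h5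
  have h3 : (p j : GaussianInt) ∣ ev (E ⟨j, 2⟩ ⟨j, 2⟩) * (((u j : ℤ) : GaussianInt)
      * ev (sg q * xq q)) * star (ev (E ⟨j, 3⟩ ⟨j, 3⟩)) := by
    rw [← Finset.add_sum_erase _ _ (Finset.mem_univ j)] at h1
    refine (dvd_add_left (Finset.dvd_sum fun k hk => ?_)).mp h1
    have hk' := Finset.ne_of_mem_erase hk
    exact Dvd.dvd.mul_right (Dvd.dvd.mul_right (h2 k hk') _) _
  have h4 : ev (E ⟨j, 3⟩ ⟨j, 3⟩) = ev (E ⟨j, 2⟩ ⟨j, 2⟩) := by
    have h5 := comm23 p hc j j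
    have h6 : (p j : GaussianInt) ^ 2 ≠ 0 := pow_ne_zero 2 hP.ne_zero
    exact mul_left_cancel₀ h6 h5
  rw [h4] at h3
  rcases hP.dvd_or_dvd h3 with h5 | h5
  · rcases hP.dvd_or_dvd h5 with h6 | h6
    · exact h6
    · exact absurd h6 (not_dvd_x (hp j) q (u j))
  · have h6 : star (p j : GaussianInt) ∣ star (star (ev (E ⟨j, 2⟩ ⟨j, 2⟩))) := by
      obtain ⟨c, hc⟩ := h5
      exact ⟨star c, by rw [hc, star_mul, mul_comm]⟩
    rw [star_star, star_natCast] at h6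
    exact h6

end core

end Pool.Agent.Helper82.DS
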