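import Mathlib

/-!
# Symmetric Poincare complexes and pairs over `ℤ[ℤ] = ℤ[t, t⁻¹]`

Conventions are those of Ranicki (Exact sequences in the algebraic theory of surgery;
High-dimensional knot theory).  A chain complex of based finitely generated free
`ℤ[ℤ]`-modules is written as ONE square matrix: the finite type `ι` is the union of the bases,
`deg i` is the degree of the basis element `i`, and column `j` of `d` is the boundary of `j`.
-/

open Matrix

namespace Pool.Agent.Helper82.DS

/-- The group ring `ℤ[ℤ] = ℤ[t, t⁻¹]`. -/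
abbrev L : Type := LaurentPolynomial ℤ

/-- The involution `t ↦ t⁻¹`. -/
noncomputable def bar : L ≃+* L := (LaurentPolynomial.invert (R := ℤ)).toRingEquiv

/-- The sign `(-1)^k`. -/
noncomputable def sg (k : ℤ) : L := if Even k then 1 else -1

/-- Conjugate transpose. -/
noncomputable def ct {m n : Type} (M : Matrix m n L) : Matrix n m L :=
  Matrix.of fun i j => bar (M j i)

/-- A bounded chain complex of based finitely generated free `ℤ[ℤ]`-modules. -/
structure Cx where
  ι : Type
  [fι : Fintype ι]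
  [dι : DecidableEq ι]
  deg : ι → ℤ
  d : Matrix ι ι L
  hom : ∀ i j, d i j ≠ 0 → deg j = deg i + 1
  sq : d * d = 0

attribute [instance] Cx.fι Cx.dι

/-- `f` maps degree `r` of `C` to degree `r + k` of `D`. -/
def Homog (C D : Cx) (k : ℤ) (f : Matrix D.ι C.ι L) : Prop :=
  ∀ i j, f i j ≠ 0 → D.deg i = C.deg j + k

/-- Chain maps. -/
structure IsChainMap (C D : Cx) (f : Matrix D.ι C.ι L) : Prop where
  deg : Homog C D 0 f
  comm : D.d * f = f * C.d

/-- Chain homotopic: `f - g = d h + h d` with `h` of degree `1`. -/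
def Htpc (C D : Cx) (f g : Matrix D.ι C.ι L) : Prop :=
  ∃ h : Matrix D.ι C.ι L, Homog C D 1 h ∧ f - g = D.d * h + h * C.d

/-- Chain homotopy equivalences. -/
def IsChainEquiv (C D : Cx) (f : Matrix D.ι C.ι L) : Prop :=
  IsChainMap C D f ∧ ∃ g : Matrix C.ι D.ι L, IsChainMap D C g ∧
    Htpc C C (g * f) 1 ∧ Htpc D D (f * g) 1

theorem bar_bar (x : L) : bar (bar x) = x := LaurentPolynomial.involutive_invert x

theorem sg_add_one (k : ℤ) : sg (k + 1) = - sg k := by
  unfold sg
  by_cases h : Even k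
  · have : ¬ Even (k + 1) := by
      intro h'
      exact (Int.not_even_one) ((Int.even_add.mp h').mp h)
    simp [h, this]
  · have : Even (k + 1) := by
      rw [Int.even_add]
      simp [h]
    simp [h, this]

theorem sg_mul_self (k : ℤ) : sg k * sg k = 1 := by
  unfold sg
  split_ifs <;> simp

theorem sg_ne_zero (k : ℤ) : sg k ≠ 0 := by
  intro h
  have := sg_mul_self k
  rw [h, mul_zero] at this
  exact zero_ne_one this

theorem bar_sg (k : ℤ) : bar (sg k) = sg k := by
  unfold sg
  split_ifs <;> simp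

/-- The dual complex `C^{n-*}`: in degree `r` it is the dual `C^{n-r}` of `C_{n-r}` and its
differential `C^{n-r} → C^{n-r+1}` is `(-1)^r d*`. -/
@[reducible] noncomputable def Cx.dual (C : Cx) (n : ℤ) : Cx where
  ι := C.ι
  deg i := n - C.deg i
  d := Matrix.of fun i j => sg (n - C.deg j) * bar (C.d j i)
  hom := by
    intro i j h
    have h1 : C.d j i ≠ 0 := by
      intro h0
      apply h
      rw [Matrix.of_apply, h0, map_zero, mul_zero]
    have := C.hom j i h1
    omega
  sq := by
    refine Matrix.ext fun i j => ?_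
    rw [Matrix.mul_apply]
    simp only [Matrix.of_apply]
    have key : ∀ k, sg (n - C.deg k) * bar (C.d k i) * (sg (n - C.deg j) * bar (C.d j k))
        = - bar (C.d j k * C.d k i) := by
      intro k
      by_cases h : C.d j k = 0
      · simp [h]
      · have h2 := C.hom j k h
        have h3 : n - C.deg j = (n - C.deg k) + 1 := by omega
        rw [h3, sg_add_one, map_mul]
        have := sg_mul_self (n - C.deg k)
        linear_combination (- bar (C.d k i) * bar (C.d j k)) * this
    rw [Finset.sum_congr rfl (fun k _ => key k), Finset.sum_neg_distrib, ← map_sum,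
      ← Matrix.mul_apply, C.sq]
    simp

/-- Direct sum of two complexes. -/
@[reducible] noncomputable def Cx.sum (C D : Cx) : Cx where
  ι := C.ι ⊕ D.ι
  deg := Sum.elim C.deg D.deg
  d := Matrix.fromBlocks C.d 0 0 D.d
  hom := by
    rintro (i | i) (j | j) h
    · exact C.hom i j h
    · exact absurd rfl h
    · exact absurd rfl h
    · exact D.hom i j h
  sq := by
    rw [Matrix.fromBlocks_multiply]
    simp [C.sq, D.sq]

/-- The algebraic mapping cone `C(f)_r = D_r ⊕ C_{r-1}` of a chain map `f : C → D`, with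
`d (y, x) = (d y + (-1)^{r-1} f x, d x)`. -/
@[reducible] noncomputable def cone (C D : Cx) (f : Matrix D.ι C.ι L) (hf : IsChainMap C D f) : Cx where
  ι := D.ι ⊕ C.ι
  deg := Sum.elim D.deg (fun j => C.deg j + 1)
  d := Matrix.fromBlocks D.d (Matrix.of fun i j => sg (C.deg j) * f i j) 0 C.d
  hom := by
    rintro (i | i) (j | j) h
    · exact D.hom i j h
    · have h1 : f i j ≠ 0 := by
        intro h0
        apply h
        change sg (C.deg j) * f i j = 0
        rw [h0, mul_zero]
      have := hf.deg i j h1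
      simp only [Sum.elim_inl, Sum.elim_inr]
      omega
    · exact absurd rfl h
    · have := C.hom i j h
      simp only [Sum.elim_inr]
      omega
  sq := by
    rw [Matrix.fromBlocks_multiply]
    have h1 : D.d * (Matrix.of fun i j => sg (C.deg j) * f i j)
        + (Matrix.of fun i j => sg (C.deg j) * f i j) * C.d = 0 := by
      refine Matrix.ext fun i j => ?_
      rw [Matrix.add_apply, Matrix.mul_apply, Matrix.mul_apply]
      simp only [Matrix.of_apply]
      have e1 : ∑ k, D.d i k * (sg (C.deg j) * f k j) = sg (C.deg j) * (D.d * f) i j := by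
        rw [Matrix.mul_apply, Finset.mul_sum]
        exact Finset.sum_congr rfl (fun k _ => by ring)
      have e2 : ∑ k, (sg (C.deg k) * f i k) * C.d k j = - (sg (C.deg j) * (f * C.d) i j) := by
        rw [Matrix.mul_apply, Finset.mul_sum, ← Finset.sum_neg_distrib]
        refine Finset.sum_congr rfl (fun k _ => ?_)
        by_cases h : C.d k j = 0
        · simp [h]
        · rw [C.hom k j h, sg_add_one]
          ring
      rw [e1, e2, hf.comm]
      simp
    simp [h1, C.sq, D.sq]

/-- An `n`-dimensional symmetric structure `φ = {φ_s : C^{n-r+s} → C_r | s ≥ 0}` on `C`: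
`d φ_s + (-1)^r φ_s d* + (-1)^{n+s-1} (φ_{s-1} + (-1)^s T φ_{s-1}) = 0 : C^{n-r+s-1} → C_r`
with `φ_{-1} = 0` and `T φ = (-1)^{pq} φ* : C^q → C_p` for `φ : C^p → C_q`. -/
structure SymStr (n : ℤ) (C : Cx) where
  φ : ℕ → Matrix C.ι C.ι L
  hom : ∀ (s : ℕ) i j, φ s i j ≠ 0 → C.deg i + C.deg j = n + s
  rel0 : ∀ i j, (C.d * φ 0) i j + sg (C.deg i) * (φ 0 * ct C.d) i j = 0
  rel : ∀ (s : ℕ) i j, (C.d * φ (s + 1)) i j + sg (C.deg i) * (φ (s + 1) * ct C.d) i j
    + sg (n + s) * (φ s i j + sg (s + 1) * (sg (C.deg i * C.deg j) * bar (φ s j i))) = 0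

/-- A symmetric complex is Poincare if `φ_0 : C^{n-*} → C` is a chain equivalence. -/
def SymStr.Poincare {n : ℤ} {C : Cx} (Φ : SymStr n C) : Prop :=
  IsChainEquiv (C.dual n) C (Φ.φ 0)

/-- An `(n+1)`-dimensional symmetric pair `(f : C → D, (δφ, φ))`:
`d δφ_s + (-1)^r δφ_s d* + (-1)^{n+s} (δφ_{s-1} + (-1)^s T δφ_{s-1}) + (-1)^n f φ_s f* = 0`
as maps `D^{n-r+s} → D_r`, with `δφ_{-1} = 0`. -/
structure SymPair {n : ℤ} {C : Cx} (Φ : SymStr n C) (D : Cx) where
  f : Matrix D.ι C.ι L
  hf : IsChainMap C D f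
  δφ : ℕ → Matrix D.ι D.ι L
  hom : ∀ (s : ℕ) i j, δφ s i j ≠ 0 → D.deg i + D.deg j = n + 1 + s
  rel0 : ∀ i j, (D.d * δφ 0) i j + sg (D.deg i) * (δφ 0 * ct D.d) i j
    + sg n * (f * Φ.φ 0 * ct f) i j = 0
  rel : ∀ (s : ℕ) i j, (D.d * δφ (s + 1)) i j + sg (D.deg i) * (δφ (s + 1) * ct D.d) i j
    + sg (n + s + 1) * (δφ s i j + sg (s + 1) * (sg (D.deg i * D.deg j) * bar (δφ s j i)))
    + sg n * (f * Φ.φ (s + 1) * ct f) i j = 0

/-- The duality map `(δφ_0, (-1)^{n-r+1} φ_0 f*) : D^{n+1-r} → C(f)_r = D_r ⊕ C_{r-1}`. -/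
noncomputable def SymPair.dualityMap {n : ℤ} {C : Cx} {Φ : SymStr n C} {D : Cx}
    (P : SymPair Φ D) : Matrix (D.ι ⊕ C.ι) D.ι L :=
  Matrix.fromRows (P.δφ 0) (Matrix.of fun i j => sg (n - C.deg i) * (Φ.φ 0 * ct P.f) i j)

/-- A symmetric pair is Poincare if its duality map `D^{n+1-*} → C(f)` is a chain
equivalence. -/
def SymPair.Poincare {n : ℤ} {C : Cx} {Φ : SymStr n C} {D : Cx} (P : SymPair Φ D) : Prop :=
  IsChainEquiv (D.dual (n + 1)) (cone C D P.f P.hf) P.dualityMap

/-- Complementary pairs: `(f₊, f₋) : C → D₊ ⊕ D₋` is a chain homotopy equivalence. -/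
def Complementary {n : ℤ} {C : Cx} {Φ : SymStr n C} {Dp Dm : Cx}
    (P : SymPair Φ Dp) (Q : SymPair Φ Dm) : Prop :=
  IsChainEquiv C (Dp.sum Dm) (Matrix.fromRows P.f Q.f)

/-- `(C, Φ)` admits two complementary symmetric Poincare pairs. -/
def HasComplementarySlices {n : ℤ} {C : Cx} (Φ : SymStr n C) : Prop :=
  ∃ (Dp Dm : Cx) (P : SymPair Φ Dp) (Q : SymPair Φ Dm),
    P.Poincare ∧ Q.Poincare ∧ Complementary P Q

/-- The augmentation `t ↦ 1`. -/
noncomputable def aug : L →+* ℤ := LaurentPolynomial.eval₂ (RingHom.id ℤ) 1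

/-- `ℤ ⊗ C` is contractible (`t ↦ 1`). -/
def AugContractible (C : Cx) : Prop :=
  ∃ h : Matrix C.ι C.ι ℤ, (∀ i j, h i j ≠ 0 → C.deg i = C.deg j + 1) ∧
    C.d.map aug * h + h * C.d.map aug = 1

/-- `ℚ ⊗ C` is contractible: some non-zero integer `N` is chain homotopic to `0` on `C`;
in particular `N` annihilates every homology module of `C`. -/
def RatContractible (C : Cx) : Prop :=
  ∃ N : ℤ, N ≠ 0 ∧ Htpc C C ((N : L) • (1 : Matrix C.ι C.ι L)) 0

/-- A complex together with an `n`-dimensional symmetric structure. -/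
structure SymCx (n : ℤ) where
  C : Cx
  Φ : SymStr n C

end Pool.Agent.Helper82.DS
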