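import Pool.Agent.Helper82.DS.Sanity

/-! # `X ⊕ -X` has complementary slices -/

open Matrix LaurentPolynomial

namespace Pool.Agent.Helper82.DS

variable {n : ℤ}

/-- The underlying complex `C ⊕ C` of `X ⊕ -X`, with the basis `Bool × ι`. -/
@[reducible] noncomputable def dblC (C : Cx) : Cx where
  ι := Bool × C.ι
  deg := fun i => C.deg i.2
  d := Matrix.of fun i j => if i.1 = j.1 then C.d i.2 j.2 else 0
  hom := by
    rintro ⟨b, i⟩ ⟨b', j⟩ h
    apply C.hom i j
    intro h0
    apply h
    simp [h0]
  sq := by
    refine Matrix.ext ?_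
    rintro ⟨b, i⟩ ⟨b', j⟩
    have h := congrFun (congrFun C.sq i) j
    rw [Matrix.mul_apply] at h
    rw [Matrix.mul_apply, Fintype.sum_prod_type, Fintype.sum_bool]
    cases b <;> cases b' <;> simp [h]

/-- `X ⊕ -X`, with the basis `Bool × ι`: `φ` on the first copy and `-φ` on the second. -/
@[reducible] noncomputable def dbl (X : SymCx n) : SymCx n where
  C := dblC X.C
  Φ :=
    { φ := fun s => Matrix.of fun i j =>
        if i.1 = j.1 then (if i.1 then -1 else 1) * X.Φ.φ s i.2 j.2 else 0
      hom := by
        rintro s ⟨b, i⟩ ⟨b', j⟩ h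
        apply X.Φ.hom s i j
        intro h0
        apply h
        simp [h0]
      rel0 := by
        rintro ⟨b, i⟩ ⟨b', j⟩
        have h := X.Φ.rel0 i j
        rw [Matrix.mul_apply, Matrix.mul_apply] at h
        rw [Matrix.mul_apply, Matrix.mul_apply, Fintype.sum_prod_type, Fintype.sum_prod_type,
          Fintype.sum_bool, Fintype.sum_bool]
        cases b <;> cases b' <;> simp [ct] <;> simp [ct] at h <;>
          first | linear_combination h | linear_combination -h
      rel := by
        rintro s ⟨b, i⟩ ⟨b', j⟩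
        have h := X.Φ.rel s i j
        rw [Matrix.mul_apply, Matrix.mul_apply] at h
        rw [Matrix.mul_apply, Matrix.mul_apply, Fintype.sum_prod_type, Fintype.sum_prod_type,
          Fintype.sum_bool, Fintype.sum_bool]
        cases b <;> cases b' <;> simp [ct] <;> simp [ct] at h <;>
          first | linear_combination h | linear_combination -h }

/-- The map `(x, y) ↦ x + c y`. -/
noncomputable def fold (X : SymCx n) (c : L) : Matrix X.C.ι (Bool × X.C.ι) L :=
  Matrix.of fun i j => if i = j.2 then (if j.1 then c else 1) else 0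

theorem fold_mul (X : SymCx n) {Y : Type} (c : L) (M : Matrix (Bool × X.C.ι) Y L)
    (i : X.C.ι) (y : Y) : (fold X c * M) i y = M (false, i) y + c * M (true, i) y := by
  rw [Matrix.mul_apply, Fintype.sum_prod_type, Fintype.sum_bool]
  simp [fold]
  ring

theorem mul_fold (X : SymCx n) {Y : Type} (c : L) (M : Matrix Y X.C.ι L) (b : Bool)
    (i : X.C.ι) (y : Y) : (M * fold X c) y (b, i) = (if b then c else 1) * M y i := by
  rw [Matrix.mul_apply]
  simp [fold]
  ring

theorem mul_ct_fold (X : SymCx n) {Y : Type} (c : L) (M : Matrix Y (Bool × X.C.ι) L)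
    (i : X.C.ι) (y : Y) :
    (M * ct (fold X c)) y i = M y (false, i) + bar c * M y (true, i) := by
  rw [Matrix.mul_apply, Fintype.sum_prod_type, Fintype.sum_bool]
  simp [fold, ct, apply_ite bar]
  ring

theorem fold_chain (X : SymCx n) (c : L) : IsChainMap (dbl X).C X.C (fold X c) := by
  refine ⟨?_, ?_⟩
  · rintro i ⟨b, j⟩ h
    by_cases hij : i = j
    · subst hij
      simp
    · exfalso
      apply h
      simp [fold, hij]
  · refine Matrix.ext ?_
    rintro i ⟨b, j⟩
    rw [mul_fold, fold_mul]
    cases b <;> simp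

theorem fold_iso (X : SymCx n) {c : L} (hc : c * bar c = 1) (s : ℕ) :
    fold X c * (dbl X).Φ.φ s * ct (fold X c) = 0 := by
  refine Matrix.ext fun i j => ?_
  rw [mul_ct_fold, fold_mul, fold_mul]
  simp
  linear_combination (- X.Φ.φ s i j) * hc

/-- `X ⊕ -X → X`, `(x, y) ↦ x + c y` is a symmetric pair if `c c̄ = 1`. -/
@[reducible] noncomputable def foldPair (X : SymCx n) {c : L} (hc : c * bar c = 1) :
    SymPair (dbl X).Φ X.C where
  f := fold X c
  hf := fold_chain X c
  δφ _ := 0
  hom := by
    intro s i j h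
    exact absurd rfl h
  rel0 := by
    intro i j
    rw [fold_iso X hc 0]
    simp
  rel := by
    intro s i j
    rw [fold_iso X hc (s + 1)]
    simp

theorem dual_succ_d (C : Cx) (n : ℤ) : (C.dual (n + 1)).d = - (C.dual n).d := by
  refine Matrix.ext fun i j => ?_
  rw [Matrix.neg_apply]
  simp only [Matrix.of_apply]
  have : n + 1 - C.deg j = (n - C.deg j) + 1 := by ring
  rw [this, sg_add_one]
  ring

/-- homotopy inverse of the duality map of `foldPair` -/
noncomputable def GM (X : SymCx n) (ψ : Matrix X.C.ι X.C.ι L) :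
    Matrix X.C.ι (X.C.ι ⊕ Bool × X.C.ι) L :=
  Matrix.of fun i j => Sum.elim (fun _ => 0)
      (fun j' => if j'.1 then 0 else sg (n - X.C.deg j'.2) * ψ i j'.2) j

/-- contracting homotopy for the duality map of `foldPair` -/
noncomputable def HM (X : SymCx n) (c : L) (l : Matrix X.C.ι X.C.ι L) :
    Matrix (X.C.ι ⊕ Bool × X.C.ι) (X.C.ι ⊕ Bool × X.C.ι) L :=
  Matrix.fromBlocks 0 0
    (Matrix.of fun i j => if i.1 then (if i.2 = j then - (sg (X.C.deg j) * bar c) else 0) else 0)
    (Matrix.of fun i j => if j.1 then 0 else (if i.1 then - bar c else 1) * l i.2 j.2)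

theorem dm_inl (X : SymCx n) {c : L} (hc : c * bar c = 1) (i j : X.C.ι) :
    (foldPair X hc).dualityMap (Sum.inl i) j = 0 := rfl

theorem dm_inr (X : SymCx n) {c : L} (hc : c * bar c = 1) (b : Bool) (i j : X.C.ι) :
    (foldPair X hc).dualityMap (Sum.inr (b, i)) j
      = sg (n - X.C.deg i) * ((if b then - bar c else 1) * X.Φ.φ 0 i j) := by
  change sg (n - X.C.deg i) * ((dbl X).Φ.φ 0 * ct (fold X c)) (b, i) j = _
  rw [mul_ct_fold]
  cases b <;> simp

/-- The explicit form of the duality map of `foldPair`. -/
noncomputable def FM (X : SymCx n) (c : L) : Matrix (X.C.ι ⊕ Bool × X.C.ι) X.C.ι L :=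
  Matrix.of fun i j => Sum.elim (fun _ => 0)
    (fun i' => sg (n - X.C.deg i'.2) * ((if i'.1 then - bar c else 1) * X.Φ.φ 0 i'.2 j)) i

theorem dm_eq (X : SymCx n) {c : L} (hc : c * bar c = 1) :
    (foldPair X hc).dualityMap = FM X c := by
  refine Matrix.ext ?_
  rintro (i | ⟨b, i⟩) j
  · rfl
  · exact dm_inr X hc b i j

theorem GF_eq (X : SymCx n) (c : L) (ψ : Matrix X.C.ι X.C.ι L) :
    GM X ψ * FM X c = ψ * X.Φ.φ 0 := by
  refine Matrix.ext fun i j => ?_
  rw [Matrix.mul_apply, Fintype.sum_sum_type, Fintype.sum_prod_type, Fintype.sum_bool,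
    Matrix.mul_apply]
  simp only [GM, FM, Matrix.of_apply, Sum.elim_inl, Sum.elim_inr, mul_zero,
    Finset.sum_const_zero, if_true, zero_mul, zero_add, Bool.false_eq_true, if_false, one_mul]
  refine Finset.sum_congr rfl fun k _ => ?_
  have := sg_mul_self (n - X.C.deg k)
  linear_combination (ψ i k * X.Φ.φ 0 k j) * this

theorem FG_inr (X : SymCx n) (c : L) (ψ : Matrix X.C.ι X.C.ι L)
    (hsg : ∀ i j, (X.Φ.φ 0 * ψ) i j ≠ 0 → X.C.deg i = X.C.deg j) (b : Bool) (i : X.C.ι)
    (b' : Bool) (j : X.C.ι) : (FM X c * GM X ψ) (Sum.inr (b, i)) (Sum.inr (b', j))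
      = if b' then 0 else (if b then - bar c else 1) * (X.Φ.φ 0 * ψ) i j := by
  rw [Matrix.mul_apply]
  simp only [FM, GM, Matrix.of_apply, Sum.elim_inr]
  cases b'
  · simp only [Bool.false_eq_true, if_false]
    have e : ∑ x, sg (n - X.C.deg i) * ((if b then - bar c else 1) * X.Φ.φ 0 i x)
        * (sg (n - X.C.deg j) * ψ x j) = sg (n - X.C.deg i) * sg (n - X.C.deg j)
          * ((if b then - bar c else 1) * (X.Φ.φ 0 * ψ) i j) := by
      rw [Matrix.mul_apply, Finset.mul_sum, Finset.mul_sum]
      exact Finset.sum_congr rfl fun x _ => by ring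
    rw [e]
    by_cases h : (X.Φ.φ 0 * ψ) i j = 0
    · rw [h]; ring
    · rw [hsg i j h, sg_mul_self, one_mul]
  · simp

theorem FG_inl (X : SymCx n) (c : L) (ψ : Matrix X.C.ι X.C.ι L) (i : X.C.ι)
    (y : X.C.ι ⊕ Bool × X.C.ι) : (FM X c * GM X ψ) (Sum.inl i) y = 0 := by
  rw [Matrix.mul_apply]
  simp [FM]

theorem FG_inr_inl (X : SymCx n) (c : L) (ψ : Matrix X.C.ι X.C.ι L) (x : Bool × X.C.ι)
    (j : X.C.ι) : (FM X c * GM X ψ) (Sum.inr x) (Sum.inl j) = 0 := by
  rw [Matrix.mul_apply]
  simp [GM]

theorem foldPair_poincare (X : SymCx n) {c : L} (hc : c * bar c = 1) (hP : X.Φ.Poincare) :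
    (foldPair X hc).Poincare := by
  obtain ⟨hφ, ψ, hψ, ⟨k, hk1, hk2⟩, ⟨l, hl1, hl2⟩⟩ := hP
  refine ⟨(foldPair X hc).isChainMap_dualityMap,
    GM X ψ, ⟨?_, ?_⟩, ?_, ?_⟩
  · rintro i (j | ⟨b, j⟩) h
    · exact absurd rfl h
    · have h1 : ψ i j ≠ 0 := by
        intro h0
        apply h
        simp [GM, h0]
      have := hψ.deg i j h1
      change n + 1 - X.C.deg i = (X.C.deg j + 1) + 0
      change n - X.C.deg i = X.C.deg j + 0 at this
      omega
  · refine Matrix.ext ?_
    rintro i (j | ⟨b, j⟩)
    · rw [Matrix.mul_apply, Matrix.mul_apply, Fintype.sum_sum_type]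
      simp [GM]
    · rw [Matrix.mul_apply, Matrix.mul_apply, Fintype.sum_sum_type, Fintype.sum_prod_type,
        Fintype.sum_bool]
      have h1 := congrFun (congrFun hψ.comm i) j
      rw [Matrix.mul_apply, Matrix.mul_apply] at h1
      simp only [Matrix.of_apply] at h1
      cases b
      · simp only [GM, Matrix.of_apply, Sum.elim_inl, Sum.elim_inr, Matrix.fromBlocks_apply₂₂,
          Matrix.fromBlocks_apply₁₂, zero_mul, Finset.sum_const_zero, zero_add, if_true,
          Bool.false_eq_true, if_false]
        have e1 : ∑ x, sg (n + 1 - X.C.deg x) * bar (X.C.d x i) * (sg (n - X.C.deg j) * ψ x j)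
            = - (sg (n - X.C.deg j) * ∑ x, sg (n - X.C.deg x) * bar (X.C.d x i) * ψ x j) := by
          rw [Finset.mul_sum, ← Finset.sum_neg_distrib]
          refine Finset.sum_congr rfl fun x _ => ?_
          have : n + 1 - X.C.deg x = (n - X.C.deg x) + 1 := by ring
          rw [this, sg_add_one]
          ring
        have e2 : ∑ x, sg (n - X.C.deg x) * ψ i x * X.C.d x j
            = - (sg (n - X.C.deg j) * ∑ x, ψ i x * X.C.d x j) := by
          rw [Finset.mul_sum, ← Finset.sum_neg_distrib]
          refine Finset.sum_congr rfl fun x _ => ?_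
          by_cases h : X.C.d x j = 0
          · rw [h]; ring
          · have h2 := X.C.hom x j h
            have : n - X.C.deg x = (n - X.C.deg j) + 1 := by omega
            rw [this, sg_add_one]
            ring
        rw [e1, h1, e2]
      · simp [GM]
  · refine ⟨-k, ?_, ?_⟩
    · intro i j h
      have := hk1 i j (by intro h0; apply h; rw [Matrix.neg_apply, h0, neg_zero])
      change n + 1 - X.C.deg i = (n + 1 - X.C.deg j) + 1
      change n - X.C.deg i = (n - X.C.deg j) + 1 at this
      omega
    · rw [dm_eq, GF_eq, hk2, dual_succ_d, neg_mul_neg, neg_mul_neg]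
  · have hsg : ∀ i j, (X.Φ.φ 0 * ψ) i j ≠ 0 → X.C.deg i = X.C.deg j := by
      intro i j h
      rw [Matrix.mul_apply] at h
      obtain ⟨k, _, hk⟩ := Finset.exists_ne_zero_of_sum_ne_zero h
      have h1 := X.Φ.hom 0 i k (left_ne_zero_of_mul hk)
      have h2 := hψ.deg k j (right_ne_zero_of_mul hk)
      simp only [Nat.cast_zero, add_zero] at h1 h2
      omega
    have hlr : ∀ i j, (X.Φ.φ 0 * ψ) i j
        = (if i = j then 1 else 0) + (∑ k, X.C.d i k * l k j + ∑ k, l i k * X.C.d k j) := by
      intro i j
      have := congrFun (congrFun hl2 i) j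
      rw [Matrix.sub_apply, Matrix.one_apply, Matrix.add_apply, Matrix.mul_apply (M := X.C.d),
        Matrix.mul_apply (M := l)] at this
      linear_combination this
    refine ⟨HM X c l, ?_, ?_⟩
    · rintro (i | ⟨b, i⟩) (j | ⟨b', j⟩) h
      · exact absurd rfl h
      · exact absurd rfl h
      · cases b
        · exact absurd (by simp [HM]) h
        · by_cases hij : i = j
          · subst hij
            rfl
          · exact absurd (by simp [HM, hij]) h
      · have h1 : l i j ≠ 0 := by
          intro h0
          apply h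
          simp [HM, h0]
        have := hl1 i j h1
        change X.C.deg i + 1 = (X.C.deg j + 1) + 1
        omega
    · rw [dm_eq]
      refine Matrix.ext ?_
      rintro (i | ⟨b, i⟩) (j | ⟨b', j⟩)
      · rw [Matrix.sub_apply, FG_inl, Matrix.add_apply, Matrix.mul_apply, Matrix.mul_apply,
          Fintype.sum_sum_type, Fintype.sum_sum_type, Fintype.sum_prod_type, Fintype.sum_bool,
          Matrix.one_apply]
        simp [HM, fold]
        by_cases hij : i = j
        · subst hij
          rw [if_pos rfl, if_pos rfl]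
          have := sg_mul_self (X.C.deg i)
          linear_combination (-1 : L) * hc - (c * bar c) * this
        · rw [if_neg hij, if_neg hij]
      · rw [Matrix.sub_apply, FG_inl, Matrix.add_apply, Matrix.mul_apply, Matrix.mul_apply,
          Fintype.sum_sum_type, Fintype.sum_sum_type, Fintype.sum_prod_type, Fintype.sum_bool,
          Fintype.sum_prod_type, Fintype.sum_bool, Matrix.one_apply]
        cases b' <;> simp [HM, fold]
        linear_combination (sg (X.C.deg i) * l i j) * hc
      · rw [Matrix.sub_apply, FG_inr_inl, Matrix.add_apply, Matrix.mul_apply, Matrix.mul_apply,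
          Fintype.sum_sum_type, Fintype.sum_sum_type, Fintype.sum_prod_type, Fintype.sum_bool,
          Fintype.sum_prod_type, Fintype.sum_bool, Matrix.one_apply]
        cases b <;> simp [HM, fold]
        by_cases hd : X.C.d i j = 0
        · rw [hd]; ring
        · rw [X.C.hom i j hd, sg_add_one]
          ring
      · rw [Matrix.sub_apply, FG_inr X c ψ hsg, hlr, Matrix.one_apply, Matrix.add_apply,
          Matrix.mul_apply, Matrix.mul_apply,
          Fintype.sum_sum_type, Fintype.sum_sum_type, Fintype.sum_prod_type, Fintype.sum_bool,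
          Fintype.sum_prod_type, Fintype.sum_bool]
        cases b <;> cases b' <;> simp [HM, fold]
        · have e1 : ∑ x, X.C.d i x * (bar c * l x j) = bar c * ∑ x, X.C.d i x * l x j := by
            rw [Finset.mul_sum]
            exact Finset.sum_congr rfl fun x _ => by ring
          have e2 : ∑ x, bar c * l i x * X.C.d x j = bar c * ∑ x, l i x * X.C.d x j := by
            rw [Finset.mul_sum]
            exact Finset.sum_congr rfl fun x _ => by ring
          rw [e1, e2]
          have := sg_mul_self (X.C.deg j)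
          by_cases hij : i = j
          · rw [if_pos hij, if_pos hij]
            linear_combination (bar c) * this
          · rw [if_neg hij, if_neg hij]
            ring
        · have := sg_mul_self (X.C.deg j)
          by_cases hij : i = j
          · rw [if_pos hij, if_pos hij]
            linear_combination hc + (c * bar c) * this
          · rw [if_neg hij, if_neg hij]
            ring

theorem dbl_complementary (X : SymCx n) {c c' w : L} (hc : c * bar c = 1)
    (hc' : c' * bar c' = 1) (h : Matrix X.C.ι X.C.ι L) (hh : Homog X.C X.C 1 h)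
    (hw : ((c' - c) * w - 1) • (1 : Matrix X.C.ι X.C.ι L) = X.C.d * h + h * X.C.d) :
    Complementary (foldPair X hc) (foldPair X hc') := by
  have hw' : ∀ i j, ((c' - c) * w - 1) * (if i = j then 1 else 0)
      = ∑ k, X.C.d i k * h k j + ∑ k, h i k * X.C.d k j := by
    intro i j
    have := congrFun (congrFun hw i) j
    rw [Matrix.smul_apply, Matrix.one_apply, Matrix.add_apply, Matrix.mul_apply,
      Matrix.mul_apply, smul_eq_mul] at this
    exact this
  have hM : Matrix.fromRows (fold X c) (fold X c')
      = Matrix.of fun (i : X.C.ι ⊕ X.C.ι) (j : Bool × X.C.ι) =>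
        Sum.elim (fun i' => if i' = j.2 then (if j.1 then c else 1) else 0)
          (fun i' => if i' = j.2 then (if j.1 then c' else 1) else 0) i := by
    refine Matrix.ext ?_
    rintro (i | i) ⟨b, j⟩ <;> rfl
  refine ⟨⟨?_, ?_⟩, Matrix.of fun (i : Bool × X.C.ι) (j : X.C.ι ⊕ X.C.ι) =>
      Sum.elim (fun j' => if i.2 = j' then (if i.1 then - w else w * c') else 0)
        (fun j' => if i.2 = j' then (if i.1 then w else - (w * c)) else 0) j, ⟨?_, ?_⟩,
      ⟨Matrix.of fun (i : Bool × X.C.ι) (j : Bool × X.C.ι) =>
        if i.1 = j.1 then h i.2 j.2 else 0, ?_, ?_⟩,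
      ⟨Matrix.fromBlocks h 0 0 h, ?_, ?_⟩⟩
  · rintro (i | i) j hij
    · exact (fold_chain X c).deg i j hij
    · exact (fold_chain X c').deg i j hij
  · simp only [Cx.sum]
    rw [Matrix.fromBlocks_mul_fromRows, Matrix.fromRows_mul, (fold_chain X c).comm,
      (fold_chain X c').comm]
    simp
  · rintro ⟨b, i⟩ (j | j) hij
    · by_cases h1 : i = j
      · subst h1; simp
      · exact absurd (by simp [h1]) hij
    · by_cases h1 : i = j
      · subst h1; simp
      · exact absurd (by simp [h1]) hij
  · refine Matrix.ext ?_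
    rintro ⟨b, i⟩ (j | j)
    · rw [Matrix.mul_apply, Matrix.mul_apply, Fintype.sum_sum_type, Fintype.sum_prod_type,
        Fintype.sum_bool]
      cases b <;> simp <;> ring
    · rw [Matrix.mul_apply, Matrix.mul_apply, Fintype.sum_sum_type, Fintype.sum_prod_type,
        Fintype.sum_bool]
      cases b <;> simp <;> ring
  · rintro ⟨b, i⟩ ⟨b', j⟩ hij
    have h1 : h i j ≠ 0 := by
      intro h0; apply hij; simp [h0]
    exact hh i j h1
  · rw [hM]
    refine Matrix.ext ?_
    rintro ⟨b, i⟩ ⟨b', j⟩
    rw [Matrix.sub_apply, Matrix.add_apply, Matrix.mul_apply, Matrix.mul_apply,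
      Matrix.mul_apply, Matrix.one_apply, Fintype.sum_sum_type, Fintype.sum_prod_type,
      Fintype.sum_prod_type, Fintype.sum_bool, Fintype.sum_bool]
    have := hw' i j
    cases b <;> cases b' <;> simp
    all_goals
      by_cases hij : i = j
      · simp only [if_pos hij] at this ⊢
        first
        | ring1
        | linear_combination this
      · simp only [if_neg hij] at this ⊢
        first
        | ring1
        | linear_combination this
  · rintro (i | i) (j | j) hij
    · exact hh i j hij
    · exact absurd rfl hij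
    · exact absurd rfl hij
    · exact hh i j hij
  · rw [hM]
    refine Matrix.ext ?_
    rintro (i | i) (j | j)
    all_goals
      rw [Matrix.sub_apply, Matrix.add_apply, Matrix.mul_apply, Matrix.mul_apply,
        Matrix.mul_apply, Matrix.one_apply, Fintype.sum_prod_type, Fintype.sum_sum_type,
        Fintype.sum_sum_type, Fintype.sum_bool]
    all_goals have := hw' i j
    all_goals simp
    all_goals
      by_cases hij : i = j
      · simp only [if_pos hij] at this ⊢
        first
        | ring1
        | linear_combination this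
      · simp only [if_neg hij] at this ⊢
        first
        | ring1
        | linear_combination this

theorem hasComplementarySlices_dbl (X : SymCx n) (hP : X.Φ.Poincare) (w : L)
    (h : Matrix X.C.ι X.C.ι L) (hh : Homog X.C X.C 1 h)
    (hw : ((T 1 - 1) * w - 1) • (1 : Matrix X.C.ι X.C.ι L) = X.C.d * h + h * X.C.d) :
    HasComplementarySlices (dbl X).Φ := by
  have h1 : (1 : L) * bar 1 = 1 := by rw [map_one, one_mul]
  have h2 : (T 1 : L) * bar (T 1) = 1 := by
    rw [show bar (T 1) = T (-1) from LaurentPolynomial.invert_T 1, ← T_add]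
    norm_num
  exact ⟨X.C, X.C, foldPair X h1, foldPair X h2, foldPair_poincare X h1 hP,
    foldPair_poincare X h2 hP, dbl_complementary X h1 h2 h hh hw⟩

end Pool.Agent.Helper82.DS
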