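import Pool.Agent.Helper82.DS.Block

/-! # The complexes attached to odd numbers `p` -/

open Matrix LaurentPolynomial

namespace Pool.Agent.Helper82.DS

/-- `x = t - t⁻¹` if `q` is even and `x = 1` if `q` is odd. -/
noncomputable def xq (q : ℤ) : L := if Even q then T 1 - T (-1) else 1

theorem bar_T (n : ℤ) : bar (T n) = T (-n) := LaurentPolynomial.invert_T n

theorem bar_xq (q : ℤ) : bar (xq q) = - (sg q * xq q) := by
  unfold xq sg
  split_ifs with h
  · rw [map_sub, bar_T, bar_T, neg_neg]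
    ring
  · rw [map_one]
    ring

/-- `t² + 1`. -/
noncomputable def bb : L := T 2 + 1

theorem bar_bb : bar bb = T (-2) * bb := by
  unfold bb
  rw [map_add, bar_T, map_one, mul_add, ← T_add]
  norm_num
  ring

theorem T_mul_T_neg_two : (T 2 : L) * T (-2) = 1 := by
  rw [← T_add]
  norm_num

/-- The symmetric complex `X_p`. -/
noncomputable def Xp (q : ℤ) (p : ℕ) : SymCx (2 * q + 1) :=
  blockSym q (p : L) bb (xq q) (T 2) (T (-2)) (map_natCast bar p) bar_bb T_mul_T_neg_two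
    (bar_xq q) (bar_T 2) (by rw [bar_T, neg_neg])

theorem Xp_poincare (q : ℤ) (m : ℕ) : (Xp q (2 * m + 1)).Φ.Poincare := by
  by_cases h : Even q
  · refine blockSym_poincare q _ _ _ _ _
      ((-(T 1 * ((m : L) + 1))) * (1 - ((2 * (m : L) + 1) - bb * ((m : L) + 1))))
      1 (-(2 * ((m : L) + 1))) (((m : L) + 1) * ((m : L) + 1)) _ _ _ _ _ _ ?_
    unfold xq bb
    rw [if_pos h]
    have e1 : (T 1 : L) * T 1 = T 2 := by rw [← T_add]; norm_num
    have e2 : (T (-1) : L) * T 1 = 1 := by rw [← T_add]; norm_num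
    push_cast
    linear_combination (-((m : L) + 1) * (1 - ((2 * m + 1) - (T 2 + 1) * ((m : L) + 1)))) * e1
      + (((m : L) + 1) * (1 - ((2 * m + 1) - (T 2 + 1) * ((m : L) + 1)))) * e2
  · refine blockSym_poincare q _ _ _ _ _ 1 0 0 0 _ _ _ _ _ _ ?_
    unfold xq
    rw [if_neg h]
    ring

theorem aug_T (n : ℤ) : aug (T n) = 1 := by
  unfold aug
  simp

theorem aug_bb : aug bb = 2 := by
  unfold bb
  rw [map_add, aug_T, map_one]
  norm_num

/-- A contraction at `t = 1`. -/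
def bG (m : ℤ) : Matrix (Fin 6) (Fin 6) ℤ :=
  !![0, 0, 0, 0, 0, 0;
     1, 0, 0, 0, 0, 0;
     -m, 0, 0, 0, 0, 0;
     0, -m, -1, 0, 0, 0;
     0, m * m, m, 0, 0, 0;
     0, 0, 0, -m, -1, 0]

theorem bG_deg (q m : ℤ) (i j : Fin 6) (h : bG m i j ≠ 0) : bdeg q i = bdeg q j + 1 := by
  fin_cases i <;> fin_cases j <;> first
    | (exfalso; apply h; simp [bG]; done)
    | (simp [bdeg]; done)
    | (simp [bdeg]; ring)

theorem bG_htpy (m : ℤ) (a : L) (ha : aug a = 2 * m + 1) :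
    (bD a bb).map aug * bG m + bG m * (bD a bb).map aug = 1 := by
  have hD : (bD a bb).map aug =
      !![0, 2 * m + 1, 2, 0, 0, 0;
         0, 0, 0, 2 * (2 * m + 1), 2 * 2, 0;
         0, 0, 0, -((2 * m + 1) * (2 * m + 1)), -((2 * m + 1) * 2), 0;
         0, 0, 0, 0, 0, 2;
         0, 0, 0, 0, 0, -(2 * m + 1);
         0, 0, 0, 0, 0, 0] := by
    refine Matrix.ext fun i j => ?_
    fin_cases i <;> fin_cases j <;> simp [bD, aug_bb, ha]
  rw [hD]
  refine Matrix.ext fun i j => ?_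
  fin_cases i <;> fin_cases j <;>
    simp [bG] <;> ring

theorem Xp_aug (q : ℤ) (m : ℕ) : AugContractible (Xp q (2 * m + 1)).C :=
  ⟨bG m, bG_deg q m, bG_htpy m _ (by rw [map_natCast]; push_cast; ring)⟩

theorem Xp_rat (q : ℤ) (p : ℕ) (hp : p ≠ 0) : RatContractible (Xp q p).C := by
  refine ⟨(p : ℤ) * p, by positivity, bH (p : L) bb 1 0 0, bH_deg q (p : L) bb 1 0 0, ?_⟩
  have h1 := bH_htpy (p : L) bb 1 0 0
  have h2 : ((((p : ℤ) * p : ℤ) : L)) • (1 : Matrix (Fin 6) (Fin 6) L) - 0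
      = bD (p : L) bb * bH (p : L) bb 1 0 0 + bH (p : L) bb 1 0 0 * bD (p : L) bb := by
    rw [h1, sub_zero]
    push_cast
    congr 1
    ring
  exact h2

theorem bdeg_mem (q : ℤ) (i : Fin 6) : q - 1 ≤ bdeg q i ∧ bdeg q i ≤ q + 2 := by
  fin_cases i <;> simp [bdeg] <;> omega

theorem Xp_good (q : ℤ) (p : ℕ) (hp : Odd p) : Good q (Xp q p) := by
  obtain ⟨m, rfl⟩ := hp
  exact ⟨Xp_poincare q m, bdeg_mem q, Xp_aug q m, Xp_rat q _ (by omega)⟩

end Pool.Agent.Helper82.DS
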