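import Pool.Agent.Helper82.DS.Core
import Pool.Agent.Helper82.DS.Double

/-! # The theorem -/

open Matrix LaurentPolynomial

namespace Pool.Agent.Helper82.DS

theorem no_slices (q : ℤ) {J : Type} [Fintype J] [DecidableEq J] (p : J → ℕ) (u : J → ℤˣ)
    (hp : ∀ j, (p j).Prime ∧ p j % 4 = 3) (j : J) (hj : ∀ k, p k = p j → k = j) :
    ¬ HasComplementarySlices (SymCx.sumFam fun j => (Xp q (p j)).scale (u j)).Φ := by
  intro H
  obtain ⟨e, e', h, ⟨he0, he1, K, hK⟩, ⟨he0', he1', K', hK'⟩, hsum⟩ := split_of_slices H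
  have d1 : (p j : GaussianInt) ∣ ev (e ⟨j, (2 : Fin 6)⟩ ⟨j, (2 : Fin 6)⟩) :=
    core_dvd p (q := q) (u := u) (E := e) (K := K) hp j hj
      (fun i k hik => by have := he0 i k hik; rw [add_zero] at this; exact this) he1
      (hK ⟨j, (2 : Fin 6)⟩ ⟨j, (3 : Fin 6)⟩)
  have d2 : (p j : GaussianInt) ∣ ev (e' ⟨j, (2 : Fin 6)⟩ ⟨j, (2 : Fin 6)⟩) :=
    core_dvd p (q := q) (u := u) (E := e') (K := K') hp j hj
      (fun i k hik => by have := he0' i k hik; rw [add_zero] at this; exact this) he1'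
      (hK' ⟨j, (2 : Fin 6)⟩ ⟨j, (3 : Fin 6)⟩)
  have key : ∀ h : Matrix (Σ _ : J, Fin 6) (Σ _ : J, Fin 6) L,
      (p j : GaussianInt) ∣ ev ((DJ p * h + h * DJ p) ⟨j, 2⟩ ⟨j, 2⟩) := by
    intro h
    unfold DJ
    rw [Matrix.add_apply, bdr_mul_apply, mul_bdr_apply, Fin.sum_univ_six, Fin.sum_univ_six]
    simp [bD, ev_bb]
    rw [mul_assoc]
    exact Dvd.intro _ rfl
  obtain ⟨h', hh'⟩ : ∃ h' : Matrix (Σ _ : J, Fin 6) (Σ _ : J, Fin 6) L, h' = h := ⟨h, rfl⟩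
  have d3 := key h'
  have h1 : e ⟨j, (2 : Fin 6)⟩ ⟨j, (2 : Fin 6)⟩ + e' ⟨j, (2 : Fin 6)⟩ ⟨j, (2 : Fin 6)⟩ - 1
      = (DJ p * h' + h' * DJ p) ⟨j, 2⟩ ⟨j, 2⟩ := by
    rw [hh']
    have := congrFun (congrFun hsum ⟨j, (2 : Fin 6)⟩) ⟨j, (2 : Fin 6)⟩
    rw [Matrix.sub_apply, Matrix.add_apply, Matrix.one_apply_eq] at this
    exact this
  rw [← h1, map_sub, map_add, map_one] at d3
  have h2 : (p j : GaussianInt) ∣ 1 := by
    have := dvd_sub (dvd_add d1 d2) d3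
    rwa [sub_sub_cancel] at this
  exact (prime_of (p j) (hp j)).not_isUnit (isUnit_of_dvd_one h2)

/-- The `i`-th prime congruent to `3` modulo `4`. -/
noncomputable def P3 (i : ℕ) : ℕ := Nat.nth (fun p => p.Prime ∧ p % 4 = 3) i

theorem infinite_P3 : (Set.ofPred fun p : ℕ => p.Prime ∧ p % 4 = 3).Infinite := by
  have h := Nat.infinite_setOfPred_prime_and_eq_mod (q := 4) (a := 3) (by decide)
  refine h.mono ?_
  rintro p ⟨hp, hp3⟩
  refine ⟨hp, ?_⟩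
  have := (ZMod.natCast_eq_natCast_iff' p 3 4).mp (by simpa using hp3)
  simpa using this

theorem P3_spec (i : ℕ) : (P3 i).Prime ∧ P3 i % 4 = 3 :=
  Nat.nth_mem_of_infinite infinite_P3 i

theorem P3_inj : Function.Injective P3 := Nat.nth_injective infinite_P3

theorem Xp_dbl (q : ℤ) (m : ℕ) : HasComplementarySlices (dbl (Xp q (2 * m + 1))).Φ := by
  refine hasComplementarySlices_dbl (Xp q (2 * m + 1)) (Xp_poincare q m)
    (-((T 1 + 1) * ((m : L) + 1) * (1 - ((2 * (m : L) + 1) - bb * ((m : L) + 1)))))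
    (bH (((2 * m + 1 : ℕ)) : L) bb (-1) (2 * ((m : L) + 1)) (-(((m : L) + 1) * ((m : L) + 1))))
    (bH_deg q _ _ _ _ _) ?_
  have h := bH_htpy (((2 * m + 1 : ℕ)) : L) bb (-1) (2 * ((m : L) + 1))
    (-(((m : L) + 1) * ((m : L) + 1)))
  have e1 : (T 1 : L) * T 1 = T 2 := by rw [← T_add]; norm_num
  have e : (T 1 - 1) * (-((T 1 + 1) * ((m : L) + 1) * (1 - ((2 * (m : L) + 1) - bb * ((m : L) + 1)))))
      - 1 = (-1) * ((((2 * m + 1 : ℕ)) : L) * (((2 * m + 1 : ℕ)) : L))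
        + (2 * ((m : L) + 1)) * ((((2 * m + 1 : ℕ)) : L) * bb)
        + (-(((m : L) + 1) * ((m : L) + 1))) * (bb * bb) := by
    unfold bb
    push_cast
    linear_combination (-((m : L) + 1) * (1 - ((2 * (m : L) + 1) - (T 2 + 1) * ((m : L) + 1)))) * e1
  rw [e]
  exact h.symm

theorem main (q : ℤ) : ∃ X : ℕ → SymCx (2 * q + 1),
    (∀ i, HasComplementarySlices (dbl (X i)).Φ) ∧
    ∀ (J : Type) [Fintype J] [DecidableEq J] (k : J → ℕ) (u : J → ℤˣ),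
      Good q (SymCx.sumFam fun j => (X (k j)).scale (u j)) ∧
      ((∃ j, ∀ l, k l = k j → l = j) →
        ¬ HasComplementarySlices (SymCx.sumFam fun j => (X (k j)).scale (u j)).Φ) := by
  refine ⟨fun i => Xp q (P3 i), ?_, ?_⟩
  · intro i
    have h := P3_spec i
    obtain ⟨m, hm⟩ : Odd (P3 i) := by
      rw [Nat.odd_iff]
      omega
    have := Xp_dbl q m
    rwa [← hm] at this
  intro J _ _ k u
  refine ⟨Good.sumFam fun j => (Xp_good q _ ?_).scale _, ?_⟩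
  · have := P3_spec (k j)
    rw [Nat.odd_iff]
    omega
  · rintro ⟨j, hj⟩
    exact no_slices q (fun j => P3 (k j)) u (fun j => P3_spec (k j)) j
      (fun l hl => hj l (P3_inj hl))

end Pool.Agent.Helper82.DS
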