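import Pool.Agent.Helper82.DS.Family

/-! # The obstruction -/

open Matrix LaurentPolynomial

namespace Pool.Agent.Helper82.DS

theorem ct_mul {m n k : Type} [Fintype n] (A : Matrix m n L) (B : Matrix n k L) :
    ct (A * B) = ct B * ct A := by
  refine Matrix.ext fun i j => ?_
  simp only [ct, Matrix.of_apply, Matrix.mul_apply, map_sum, map_mul]
  exact Finset.sum_congr rfl fun x _ => mul_comm _ _

/-- If `g : C → D` and `j : D → C` are chain maps and `(g, δφ)` is a symmetric pair, then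
`e = j g` satisfies `e φ_0 e* ≃ 0`. -/
theorem isotropy {n : ℤ} {C D : Cx} {Φ : SymStr n C} (P : SymPair Φ D)
    (j : Matrix C.ι D.ι L) (hj : Homog D C 0 j) (hjd : C.d * j = j * D.d) :
    ∃ K : Matrix C.ι C.ι L, ∀ a b,
      ((j * P.f) * Φ.φ 0 * ct (j * P.f)) a b
        = - (sg n * ((C.d * K) a b + sg (C.deg a) * (K * ct C.d) a b)) := by
  refine ⟨j * P.δφ 0 * ct j, fun a b => ?_⟩
  -- the relation of the pair as a matrix identity
  obtain ⟨S, hS⟩ : ∃ S : Matrix D.ι D.ι L, S = Matrix.diagonal (fun i => sg (D.deg i)) :=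
    ⟨_, rfl⟩
  have hrel : D.d * P.δφ 0 + S * (P.δφ 0 * ct D.d) + sg n • (P.f * Φ.φ 0 * ct P.f) = 0 := by
    refine Matrix.ext fun i k => ?_
    rw [Matrix.add_apply, Matrix.add_apply, Matrix.smul_apply, hS, Matrix.diagonal_mul]
    exact P.rel0 i k
  have h1 : j * (D.d * P.δφ 0 + S * (P.δφ 0 * ct D.d) + sg n • (P.f * Φ.φ 0 * ct P.f)) * ct j
      = 0 := by
    rw [hrel, Matrix.mul_zero, Matrix.zero_mul]
  have h2 : j * (D.d * P.δφ 0) * ct j = C.d * (j * P.δφ 0 * ct j) := by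
    rw [← Matrix.mul_assoc, ← hjd, Matrix.mul_assoc, Matrix.mul_assoc, Matrix.mul_assoc]
  have h3 : (j * (S * (P.δφ 0 * ct D.d)) * ct j) a b
      = sg (C.deg a) * ((j * P.δφ 0 * ct j) * ct C.d) a b := by
    have e1 : j * S = Matrix.diagonal (fun i => sg (C.deg i)) * j := by
      refine Matrix.ext fun i k => ?_
      rw [hS, Matrix.mul_diagonal, Matrix.diagonal_mul]
      by_cases h : j i k = 0
      · rw [h]; ring
      · rw [hj i k h, add_zero, mul_comm]
    have e2 : ct D.d * ct j = ct j * ct C.d := by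
      rw [← ct_mul, ← ct_mul, hjd]
    rw [← Matrix.mul_assoc, e1, Matrix.mul_assoc, Matrix.mul_assoc, Matrix.diagonal_mul,
      Matrix.mul_assoc (P.δφ 0), e2, ← Matrix.mul_assoc, ← Matrix.mul_assoc]
  have h4 : j * (P.f * Φ.φ 0 * ct P.f) * ct j = (j * P.f) * Φ.φ 0 * ct (j * P.f) := by
    rw [ct_mul]
    simp only [Matrix.mul_assoc]
  have h5 := congrFun (congrFun h1 a) b
  rw [Matrix.mul_add, Matrix.mul_add, Matrix.add_mul, Matrix.add_mul, Matrix.add_apply,
    Matrix.add_apply, h2, h3, Matrix.mul_smul, Matrix.smul_mul, h4, Matrix.smul_apply,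
    Matrix.zero_apply, smul_eq_mul] at h5
  have h6 := sg_mul_self n
  linear_combination (sg n) * h5 - (((j * P.f) * Φ.φ 0 * ct (j * P.f)) a b) * h6

/-- What complementary slices give on `C`. -/
theorem split_of_slices {n : ℤ} {C : Cx} {Φ : SymStr n C} (H : HasComplementarySlices Φ) :
    ∃ e e' h : Matrix C.ι C.ι L,
      (Homog C C 0 e ∧ C.d * e = e * C.d ∧ ∃ K : Matrix C.ι C.ι L, ∀ a b,
        (e * Φ.φ 0 * ct e) a b = - (sg n * ((C.d * K) a b + sg (C.deg a) * (K * ct C.d) a b)))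
      ∧ (Homog C C 0 e' ∧ C.d * e' = e' * C.d ∧ ∃ K : Matrix C.ι C.ι L, ∀ a b,
        (e' * Φ.φ 0 * ct e') a b = - (sg n * ((C.d * K) a b + sg (C.deg a) * (K * ct C.d) a b)))
      ∧ e + e' - 1 = C.d * h + h * C.d := by
  obtain ⟨Dp, Dm, P, Q, _, _, _, g, hg, ⟨h, _, hh⟩, _⟩ := H
  obtain ⟨jp, hjp⟩ : ∃ jp : Matrix C.ι Dp.ι L, jp = g.toCols₁ := ⟨_, rfl⟩
  obtain ⟨jm, hjm⟩ : ∃ jm : Matrix C.ι Dm.ι L, jm = g.toCols₂ := ⟨_, rfl⟩
  have hgc : g = Matrix.fromCols jp jm := by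
    rw [hjp, hjm, Matrix.fromCols_toCols]
  have hc : C.d * Matrix.fromCols jp jm
      = Matrix.fromCols jp jm * Matrix.fromBlocks Dp.d 0 0 Dm.d := by
    rw [← hgc]; exact hg.comm
  rw [Matrix.mul_fromCols, Matrix.fromCols_mul_fromBlocks] at hc
  simp only [Matrix.mul_zero, add_zero, zero_add] at hc
  have hcp : C.d * jp = jp * Dp.d := by
    have := congrArg Matrix.toCols₁ hc
    simpa using this
  have hcm : C.d * jm = jm * Dm.d := by
    have := congrArg Matrix.toCols₂ hc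
    simpa using this
  have hdp : Homog Dp C 0 jp := by
    intro i k hik
    have := hg.deg i (Sum.inl k)
    rw [hgc] at this
    exact this hik
  have hdm : Homog Dm C 0 jm := by
    intro i k hik
    have := hg.deg i (Sum.inr k)
    rw [hgc] at this
    exact this hik
  have homp : Homog C C 0 (jp * P.f) := by
    intro i k hik
    rw [Matrix.mul_apply] at hik
    obtain ⟨l, _, hl⟩ := Finset.exists_ne_zero_of_sum_ne_zero hik
    have a1 := hdp i l (left_ne_zero_of_mul hl)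
    have a2 := P.hf.deg l k (right_ne_zero_of_mul hl)
    omega
  have homm : Homog C C 0 (jm * Q.f) := by
    intro i k hik
    rw [Matrix.mul_apply] at hik
    obtain ⟨l, _, hl⟩ := Finset.exists_ne_zero_of_sum_ne_zero hik
    have a1 := hdm i l (left_ne_zero_of_mul hl)
    have a2 := Q.hf.deg l k (right_ne_zero_of_mul hl)
    omega
  refine ⟨jp * P.f, jm * Q.f, h, ⟨homp, ?_, isotropy P jp hdp hcp⟩,
    ⟨homm, ?_, isotropy Q jm hdm hcm⟩, ?_⟩
  · rw [← Matrix.mul_assoc, hcp, Matrix.mul_assoc, P.hf.comm, ← Matrix.mul_assoc]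
  · rw [← Matrix.mul_assoc, hcm, Matrix.mul_assoc, Q.hf.comm, ← Matrix.mul_assoc]
  · rw [hgc, Matrix.fromCols_mul_fromRows] at hh
    exact hh

end Pool.Agent.Helper82.DS
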