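import Pool.Agent.Helper82.DS.Obstruct

/-! # Sanity checks of the definitions

The duality map of a symmetric pair is a chain map, with the sign conventions of `Defs`. -/

open Matrix

namespace Pool.Agent.Helper82.DS

theorem sg_add (a b : ℤ) : sg (a + b) = sg a * sg b := by
  unfold sg
  by_cases ha : Even a <;> by_cases hb : Even b <;> simp [Int.even_add, ha, hb]

theorem sg_sub (a b : ℤ) : sg (a - b) = sg a * sg b := by
  unfold sg
  by_cases ha : Even a <;> by_cases hb : Even b <;> simp [Int.even_sub, ha, hb]

theorem SymPair.isChainMap_dualityMap {n : ℤ} {C : Cx} {Φ : SymStr n C} {D : Cx}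
    (P : SymPair Φ D) :
    IsChainMap (D.dual (n + 1)) (cone C D P.f P.hf) P.dualityMap := by
  have hψ : ∀ i j, (Φ.φ 0 * ct P.f) i j ≠ 0 → C.deg i + D.deg j = n := by
    intro i j h
    rw [Matrix.mul_apply] at h
    obtain ⟨k, _, hk⟩ := Finset.exists_ne_zero_of_sum_ne_zero h
    have h1 := Φ.hom 0 i k (left_ne_zero_of_mul hk)
    have h2 : P.f j k ≠ 0 := by
      intro h0
      apply right_ne_zero_of_mul hk
      simp only [ct, Matrix.of_apply]
      rw [h0, map_zero]
    have h3 := P.hf.deg j k h2
    simp only [Nat.cast_zero, add_zero] at h1 h3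
    omega
  refine ⟨?_, ?_⟩
  · rintro (i | i) j h
    · have := P.hom 0 i j h
      simp only [Nat.cast_zero, add_zero] at this
      change D.deg i = (n + 1 - D.deg j) + 0
      omega
    · have h1 : (Φ.φ 0 * ct P.f) i j ≠ 0 := by
        intro h0
        apply h
        change sg (n - C.deg i) * (Φ.φ 0 * ct P.f) i j = 0
        rw [h0, mul_zero]
      have := hψ i j h1
      change C.deg i + 1 = (n + 1 - D.deg j) + 0
      omega
  · unfold SymPair.dualityMap
    simp only [cone, Cx.dual]
    rw [Matrix.fromBlocks_mul_fromRows, Matrix.fromRows_mul]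
    congr 1
    · refine Matrix.ext fun i j => ?_
      have hr := P.rel0 i j
      have e1 : ((Matrix.of fun i j => sg (C.deg j) * P.f i j) *
          (Matrix.of fun i j => sg (n - C.deg i) * (Φ.φ 0 * ct P.f) i j)) i j
          = sg n * (P.f * Φ.φ 0 * ct P.f) i j := by
        rw [Matrix.mul_assoc, Matrix.mul_apply, Matrix.mul_apply, Finset.mul_sum]
        refine Finset.sum_congr rfl fun k _ => ?_
        simp only [Matrix.of_apply]
        rw [sg_sub]
        have := sg_mul_self (C.deg k)
        linear_combination (sg n * P.f i k * (Φ.φ 0 * ct P.f) k j) * this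
      have e2 : (P.δφ 0 * (Matrix.of fun i j => sg (n + 1 - D.deg j) * bar (D.d j i))) i j
          = - (sg (D.deg i) * (P.δφ 0 * ct D.d) i j) := by
        rw [Matrix.mul_apply, Matrix.mul_apply, Finset.mul_sum, ← Finset.sum_neg_distrib]
        refine Finset.sum_congr rfl fun k _ => ?_
        simp only [ct, Matrix.of_apply]
        by_cases h1 : P.δφ 0 i k = 0
        · rw [h1]; ring
        · by_cases h2 : D.d j k = 0
          · rw [h2, map_zero]; ring
          · have h3 := P.hom 0 i k h1
            have h4 := D.hom j k h2
            simp only [Nat.cast_zero, add_zero] at h3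
            have h5 : n + 1 - D.deg j = D.deg i + 1 := by omega
            rw [h5, sg_add_one]
            ring
      rw [Matrix.add_apply, e1, e2]
      linear_combination hr
    · rw [Matrix.zero_mul, zero_add]
      refine Matrix.ext fun i j => ?_
      have hcomm : ct P.f * ct D.d = ct C.d * ct P.f := by
        rw [← ct_mul, ← ct_mul, P.hf.comm]
      have e1 : (C.d * (Matrix.of fun i j => sg (n - C.deg i) * (Φ.φ 0 * ct P.f) i j)) i j
          = - (sg (n - C.deg i) * (C.d * Φ.φ 0 * ct P.f) i j) := by
        rw [Matrix.mul_assoc, Matrix.mul_apply, Matrix.mul_apply, Finset.mul_sum,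
          ← Finset.sum_neg_distrib]
        refine Finset.sum_congr rfl fun k _ => ?_
        simp only [Matrix.of_apply]
        by_cases h1 : C.d i k = 0
        · rw [h1]; ring
        · have h2 := C.hom i k h1
          have h3 : n - C.deg i = (n - C.deg k) + 1 := by omega
          rw [h3, sg_add_one]
          ring
      have e2 : ((Matrix.of fun i j => sg (n - C.deg i) * (Φ.φ 0 * ct P.f) i j) *
          (Matrix.of fun i j => sg (n + 1 - D.deg j) * bar (D.d j i))) i j
          = sg (n - C.deg i) * (sg (C.deg i) * (Φ.φ 0 * ct C.d * ct P.f) i j) := by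
        rw [Matrix.mul_assoc, ← hcomm, ← Matrix.mul_assoc, Matrix.mul_apply, Matrix.mul_apply,
          Finset.mul_sum, Finset.mul_sum]
        refine Finset.sum_congr rfl fun k _ => ?_
        simp only [Matrix.of_apply, ct]
        by_cases h1 : (Φ.φ 0 * ct P.f) i k = 0
        · simp only [ct] at h1
          rw [h1]; ring
        · by_cases h2 : D.d j k = 0
          · rw [h2, map_zero]; ring
          · have h3 := hψ i k h1
            have h4 := D.hom j k h2
            have h5 : n + 1 - D.deg j = (C.deg i + 1) + 1 := by omega
            rw [h5, sg_add_one, sg_add_one]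
            ring
      have e3 : (C.d * Φ.φ 0 * ct P.f) i j = - (sg (C.deg i) * (Φ.φ 0 * ct C.d * ct P.f) i j) := by
        rw [Matrix.mul_apply, Matrix.mul_apply, Finset.mul_sum, ← Finset.sum_neg_distrib]
        refine Finset.sum_congr rfl fun k _ => ?_
        have := Φ.rel0 i k
        linear_combination (ct P.f k j) * this
      rw [e1, e2, e3]
      ring

end Pool.Agent.Helper82.DS
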