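import Pool.Agent.Helper82.DS.Defs

/-! # Finite direct sums of symmetric complexes, and their basic properties -/

open Matrix

namespace Pool.Agent.Helper82.DS

theorem bd_ne {J : Type} [DecidableEq J] {m n : J → Type}
    (M : ∀ j, Matrix (m j) (n j) L) {j k : J} (h : j ≠ k) (a : m j) (b : n k) :
    Matrix.blockDiagonal' M ⟨j, a⟩ ⟨k, b⟩ = 0 :=
  Matrix.blockDiagonal'_apply_ne M a b h

theorem bd_eq {J : Type} [DecidableEq J] {m n : J → Type}
    (M : ∀ j, Matrix (m j) (n j) L) {j : J} (a : m j) (b : n j) :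
    Matrix.blockDiagonal' M ⟨j, a⟩ ⟨j, b⟩ = M j a b :=
  Matrix.blockDiagonal'_apply_eq M j a b

/-- Direct sum of a finite family of complexes. -/
@[reducible] noncomputable def Cx.sumFam {J : Type} [Fintype J] [DecidableEq J] (X : J → Cx) : Cx where
  ι := Σ j, (X j).ι
  deg i := (X i.1).deg i.2
  d := Matrix.blockDiagonal' (fun j => (X j).d)
  hom := by
    rintro ⟨j, a⟩ ⟨k, b⟩ h
    by_cases hjk : j = k
    · subst hjk
      rw [Matrix.blockDiagonal'_apply_eq] at h
      exact (X j).hom a b h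
    · exact absurd (bd_ne (fun j => (X j).d) hjk a b) h
  sq := by
    rw [← Matrix.blockDiagonal'_mul]
    have : (fun k => (X k).d * (X k).d) = (0 : ∀ k, Matrix (X k).ι (X k).ι L) :=
      funext fun k => (X k).sq
    rw [this, Matrix.blockDiagonal'_zero]

theorem ct_blockDiagonal' {J : Type} [DecidableEq J] {m n : J → Type}
    (M : ∀ j, Matrix (m j) (n j) L) :
    ct (Matrix.blockDiagonal' M) = Matrix.blockDiagonal' (fun j => ct (M j)) := by
  refine Matrix.ext ?_
  rintro ⟨j, a⟩ ⟨k, b⟩
  by_cases hjk : j = k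
  · subst hjk
    simp only [ct, Matrix.of_apply, Matrix.blockDiagonal'_apply_eq]
  · rw [bd_ne _ hjk a b]
    simp only [ct, Matrix.of_apply]
    rw [bd_ne _ (Ne.symm hjk) b a, map_zero]

/-- The same complex with the symmetric structure multiplied by a sign `u = ±1`. -/
@[reducible] noncomputable def SymCx.scale {n : ℤ} (u : ℤˣ) (X : SymCx n) : SymCx n where
  C := X.C
  Φ :=
    { φ := fun s => (((u : ℤ) : L)) • X.Φ.φ s
      hom := by
        intro s i j h
        exact X.Φ.hom s i j (by intro h0; apply h; rw [Matrix.smul_apply, h0, smul_zero])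
      rel0 := by
        intro i j
        have := X.Φ.rel0 i j
        rw [Matrix.mul_smul, Matrix.smul_mul, Matrix.smul_apply, Matrix.smul_apply]
        simp only [smul_eq_mul]
        linear_combination (((u : ℤ) : L)) * this
      rel := by
        intro s i j
        have := X.Φ.rel s i j
        rw [Matrix.mul_smul, Matrix.smul_mul, Matrix.smul_apply, Matrix.smul_apply,
          Matrix.smul_apply, Matrix.smul_apply]
        simp only [smul_eq_mul]
        rw [map_mul, map_intCast]
        linear_combination (((u : ℤ) : L)) * this }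

/-- Direct sum of a finite family of symmetric complexes. -/
@[reducible] noncomputable def SymCx.sumFam {n : ℤ} {J : Type} [Fintype J] [DecidableEq J]
    (X : J → SymCx n) : SymCx n where
  C := Cx.sumFam (fun j => (X j).C)
  Φ :=
    { φ := fun s => Matrix.blockDiagonal' (fun j => (X j).Φ.φ s)
      hom := by
        rintro s ⟨j, a⟩ ⟨k, b⟩ h
        by_cases hjk : j = k
        · subst hjk
          rw [Matrix.blockDiagonal'_apply_eq] at h
          exact (X j).Φ.hom s a b h
        · exact absurd (bd_ne (fun j => (X j).Φ.φ s) hjk a b) h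
      rel0 := by
        rintro ⟨j, a⟩ ⟨k, b⟩
        simp only [Cx.sumFam]
        rw [ct_blockDiagonal', ← Matrix.blockDiagonal'_mul, ← Matrix.blockDiagonal'_mul]
        by_cases hjk : j = k
        · subst hjk
          simp only [Matrix.blockDiagonal'_apply_eq]
          exact (X j).Φ.rel0 a b
        · rw [bd_ne (fun j => (X j).C.d * (X j).Φ.φ 0) hjk a b,
            bd_ne (fun j => (X j).Φ.φ 0 * ct (X j).C.d) hjk a b]
          ring
      rel := by
        rintro s ⟨j, a⟩ ⟨k, b⟩
        simp only [Cx.sumFam]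
        rw [ct_blockDiagonal', ← Matrix.blockDiagonal'_mul, ← Matrix.blockDiagonal'_mul]
        by_cases hjk : j = k
        · subst hjk
          simp only [Matrix.blockDiagonal'_apply_eq]
          exact (X j).Φ.rel s a b
        · rw [bd_ne (fun j => (X j).C.d * (X j).Φ.φ (s + 1)) hjk a b,
            bd_ne (fun j => (X j).Φ.φ (s + 1) * ct (X j).C.d) hjk a b,
            bd_ne (fun j => (X j).Φ.φ s) hjk a b,
            bd_ne (fun j => (X j).Φ.φ s) (Ne.symm hjk) b a, map_zero]
          ring }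

/-- The properties of the Blanchfield complex of a `(2q-1)`-knot with group `ℤ` for `q ≥ 3`
which we need: symmetric Poincare of dimension `2q+1`, concentrated in degrees
`q-1, ..., q+2`, contractible over `ℤ` at `t = 1`, and (more than a knot must satisfy)
contractible over `ℚ[t, t⁻¹]`. -/
def Good (q : ℤ) (X : SymCx (2 * q + 1)) : Prop :=
  X.Φ.Poincare ∧ (∀ i, q - 1 ≤ X.C.deg i ∧ X.C.deg i ≤ q + 2) ∧
    AugContractible X.C ∧ RatContractible X.C

theorem homog_smul {C D : Cx} {k : ℤ} {f : Matrix D.ι C.ι L} (c : L) (h : Homog C D k f) :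
    Homog C D k (c • f) := by
  intro i j hf
  exact h i j (by intro h0; apply hf; rw [Matrix.smul_apply, h0, smul_zero])

theorem IsChainMap.smul {C D : Cx} {f : Matrix D.ι C.ι L} (c : L) (h : IsChainMap C D f) :
    IsChainMap C D (c • f) :=
  ⟨homog_smul c h.deg, by rw [Matrix.mul_smul, Matrix.smul_mul, h.comm]⟩

theorem IsChainEquiv.smul {C D : Cx} {f : Matrix D.ι C.ι L} {c : L} (hc : c * c = 1)
    (h : IsChainEquiv C D f) : IsChainEquiv C D (c • f) := by
  obtain ⟨hf, g, hg, h1, h2⟩ := h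
  refine ⟨hf.smul c, c • g, hg.smul c, ?_, ?_⟩
  · rw [Matrix.smul_mul, Matrix.mul_smul, smul_smul, hc, one_smul]; exact h1
  · rw [Matrix.smul_mul, Matrix.mul_smul, smul_smul, hc, one_smul]; exact h2

theorem unit_mul_self (u : ℤˣ) : (((u : ℤ) : L)) * ((u : ℤ) : L) = 1 := by
  rw [← Int.cast_mul, ← Units.val_mul, Int.units_mul_self]
  simp

theorem Good.scale {q : ℤ} {X : SymCx (2 * q + 1)} (h : Good q X) (u : ℤˣ) :
    Good q (X.scale u) :=
  ⟨IsChainEquiv.smul (unit_mul_self u) h.1, h.2.1, h.2.2.1, h.2.2.2⟩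

theorem homog_blockDiagonal' {J : Type} [Fintype J] [DecidableEq J] {C D : J → Cx} {k : ℤ}
    {f : ∀ j, Matrix (D j).ι (C j).ι L} (h : ∀ j, Homog (C j) (D j) k (f j)) :
    Homog (Cx.sumFam C) (Cx.sumFam D) k (Matrix.blockDiagonal' f) := by
  rintro ⟨j, a⟩ ⟨l, b⟩ hf
  by_cases hjl : j = l
  · subst hjl
    rw [Matrix.blockDiagonal'_apply_eq] at hf
    exact h j a b hf
  · exact absurd (bd_ne f hjl a b) hf

theorem isChainMap_blockDiagonal' {J : Type} [Fintype J] [DecidableEq J] {C D : J → Cx}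
    {f : ∀ j, Matrix (D j).ι (C j).ι L} (h : ∀ j, IsChainMap (C j) (D j) (f j)) :
    IsChainMap (Cx.sumFam C) (Cx.sumFam D) (Matrix.blockDiagonal' f) := by
  refine ⟨homog_blockDiagonal' (fun j => (h j).deg), ?_⟩
  simp only [Cx.sumFam]
  rw [← Matrix.blockDiagonal'_mul, ← Matrix.blockDiagonal'_mul]
  congr 1
  exact funext fun j => (h j).comm

theorem htpc_blockDiagonal' {J : Type} [Fintype J] [DecidableEq J] {C D : J → Cx}
    {f g : ∀ j, Matrix (D j).ι (C j).ι L} (h : ∀ j, Htpc (C j) (D j) (f j) (g j)) :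
    Htpc (Cx.sumFam C) (Cx.sumFam D) (Matrix.blockDiagonal' f) (Matrix.blockDiagonal' g) := by
  choose s hs1 hs2 using h
  refine ⟨Matrix.blockDiagonal' s, homog_blockDiagonal' hs1, ?_⟩
  simp only [Cx.sumFam]
  rw [← Matrix.blockDiagonal'_mul, ← Matrix.blockDiagonal'_mul, ← Matrix.blockDiagonal'_sub,
    ← Matrix.blockDiagonal'_add]
  congr 1
  exact funext fun j => hs2 j

theorem isChainEquiv_blockDiagonal' {J : Type} [Fintype J] [DecidableEq J] {C D : J → Cx}
    {f : ∀ j, Matrix (D j).ι (C j).ι L} (h : ∀ j, IsChainEquiv (C j) (D j) (f j)) :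
    IsChainEquiv (Cx.sumFam C) (Cx.sumFam D) (Matrix.blockDiagonal' f) := by
  choose hf g hg h1 h2 using h
  refine ⟨isChainMap_blockDiagonal' hf, Matrix.blockDiagonal' g,
    isChainMap_blockDiagonal' hg, ?_, ?_⟩
  · have := htpc_blockDiagonal' h1
    rw [Matrix.blockDiagonal'_mul] at this
    have e : Matrix.blockDiagonal' (fun j => (1 : Matrix (C j).ι (C j).ι L)) = 1 :=
      Matrix.blockDiagonal'_one
    rw [e] at this
    exact this
  · have := htpc_blockDiagonal' h2
    rw [Matrix.blockDiagonal'_mul] at this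
    have e : Matrix.blockDiagonal' (fun j => (1 : Matrix (D j).ι (D j).ι L)) = 1 :=
      Matrix.blockDiagonal'_one
    rw [e] at this
    exact this

theorem dual_sumFam_d {J : Type} [Fintype J] [DecidableEq J] (X : J → Cx) (n : ℤ) :
    ((Cx.sumFam X).dual n).d = (Cx.sumFam (fun j => (X j).dual n)).d := by
  refine Matrix.ext ?_
  rintro ⟨j, a⟩ ⟨k, b⟩
  by_cases hjk : j = k
  · subst hjk
    simp only [Matrix.of_apply, Matrix.blockDiagonal'_apply_eq]
  · refine Eq.trans ?_ (bd_ne (fun j => ((X j).dual n).d) hjk a b).symm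
    have e : (Cx.sumFam X).d ⟨k, b⟩ ⟨j, a⟩ = 0 := bd_ne (fun j => (X j).d) (Ne.symm hjk) b a
    change sg _ * bar ((Cx.sumFam X).d ⟨k, b⟩ ⟨j, a⟩) = 0
    rw [e, map_zero, mul_zero]

theorem poincare_sumFam {n : ℤ} {J : Type} [Fintype J] [DecidableEq J] {X : J → SymCx n}
    (h : ∀ j, (X j).Φ.Poincare) : (SymCx.sumFam X).Φ.Poincare := by
  obtain ⟨⟨h1, h2⟩, g, ⟨hg1, hg2⟩, ⟨k, hk1, hk2⟩, ⟨l, hl1, hl2⟩⟩ :=
    isChainEquiv_blockDiagonal' (C := fun j => (X j).C.dual n) (D := fun j => (X j).C) h
  have hd := dual_sumFam_d (fun j => (X j).C) n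
  refine ⟨⟨h1, ?_⟩, g, ⟨hg1, ?_⟩, ⟨k, hk1, ?_⟩, ⟨l, hl1, hl2⟩⟩
  · exact h2.trans (congrArg (fun M => _ * M) hd.symm)
  · exact (congrArg (fun M => M * g) hd).trans hg2
  · refine hk2.trans ?_
    exact congrArg (fun M => M * k + k * M) hd.symm

theorem ratContractible_sumFam {J : Type} [Fintype J] [DecidableEq J] {X : J → Cx}
    (h : ∀ j, RatContractible (X j)) : RatContractible (Cx.sumFam X) := by
  choose N hN s hs1 hs2 using h
  refine ⟨∏ j, N j, Finset.prod_ne_zero_iff.mpr fun j _ => hN j,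
    Matrix.blockDiagonal' (fun j => (((∏ k ∈ Finset.univ.erase j, N k : ℤ) : L)) • s j),
    homog_blockDiagonal' (fun j => ?_), ?_⟩
  · intro a b hab
    apply hs1 j a b
    intro h0
    apply hab
    rw [Matrix.smul_apply, h0, smul_zero]
  · simp only [Cx.sumFam]
    rw [← Matrix.blockDiagonal'_mul, ← Matrix.blockDiagonal'_mul, sub_zero,
      ← Matrix.blockDiagonal'_add]
    refine Matrix.ext ?_
    rintro ⟨j, a⟩ ⟨k, b⟩
    by_cases hjk : j = k
    · subst hjk
      rw [Matrix.blockDiagonal'_apply_eq]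
      have := congrFun (congrFun (hs2 j) a) b
      simp only [sub_zero] at this
      simp only [Pi.add_apply, Matrix.mul_smul, Matrix.smul_mul, ← smul_add]
      rw [Matrix.smul_apply, Matrix.smul_apply, ← this, Matrix.smul_apply]
      simp only [smul_eq_mul]
      rw [← mul_assoc, ← Int.cast_mul, mul_comm (∏ k ∈ Finset.univ.erase j, N k) (N j),
        Finset.mul_prod_erase _ _ (Finset.mem_univ j)]
      congr 1
      by_cases hab : a = b
      · subst hab; simp
      · rw [Matrix.one_apply_ne hab, Matrix.one_apply_ne]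
        intro h
        apply hab
        simpa using h
    · rw [bd_ne ((fun j => (X j).d * (((∏ k ∈ Finset.univ.erase j, N k : ℤ) : L)) • s j) +
        fun j => (((∏ k ∈ Finset.univ.erase j, N k : ℤ) : L)) • s j * (X j).d) hjk a b,
        Matrix.smul_apply, Matrix.one_apply_ne, smul_zero]
      intro h
      exact hjk (congrArg Sigma.fst h)

theorem augContractible_sumFam {J : Type} [Fintype J] [DecidableEq J] {X : J → Cx}
    (h : ∀ j, AugContractible (X j)) : AugContractible (Cx.sumFam X) := by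
  choose s hs1 hs2 using h
  refine ⟨Matrix.blockDiagonal' s, ?_, ?_⟩
  · rintro ⟨j, a⟩ ⟨k, b⟩ hab
    by_cases hjk : j = k
    · subst hjk
      rw [Matrix.blockDiagonal'_apply_eq] at hab
      exact hs1 j a b hab
    · exact absurd (Matrix.blockDiagonal'_apply_ne s a b hjk) hab
  · simp only [Cx.sumFam]
    rw [Matrix.blockDiagonal'_map _ _ (map_zero aug), ← Matrix.blockDiagonal'_mul,
      ← Matrix.blockDiagonal'_mul, ← Matrix.blockDiagonal'_add]
    rw [← Matrix.blockDiagonal'_one]
    congr 1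
    exact funext fun j => hs2 j

theorem Good.sumFam {q : ℤ} {J : Type} [Fintype J] [DecidableEq J]
    {X : J → SymCx (2 * q + 1)} (h : ∀ j, Good q (X j)) : Good q (SymCx.sumFam X) :=
  ⟨poincare_sumFam fun j => (h j).1, fun i => (h i.1).2.1 i.2,
    augContractible_sumFam fun j => (h j).2.2.1,
    ratContractible_sumFam fun j => (h j).2.2.2⟩

end Pool.Agent.Helper82.DS
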